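import Pool.Agent.Work.MP_c51bc2_nt_pb.Interface

set_option autoImplicit false

open Finset Complex MeasureTheory HZS

namespace HZP

theorem stmt_EQD2 (hPHS : Stmt_PHS) (hTHX : Stmt_THX) : Stmt_EQD := by
  obtain ⟨-, hcd, -, C0, hC0, hd, -⟩ := hPHS
  have hthc : Continuous th := continuous_iff_continuousAt.2 fun t => (hTHX.2 t).continuousAt
  refine ⟨4, Real.exp (4 * C0 + 4), by norm_num, by
    rw [← Real.exp_zero]; exact Real.exp_lt_exp.2 (by linarith), ?_⟩
  rintro T f hT hfm hf0 ⟨M, hM⟩ hper
  have hT4 : 4 ≤ T := by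
    have h1 := Real.add_one_le_exp (4 * C0 + 4)
    linarith
  have hTp : 0 < T := by linarith
  have hlog : 4 * C0 + 4 ≤ Real.log T := (Real.le_log_iff_exp_le hTp).2 hT
  have hlog0 : 0 < Real.log T := by linarith
  have hTT : T ≤ 2 * T := by linarith
  have hpi := Real.pi_pos
  have hpi3 := Real.pi_gt_three
  have hdt : ∀ t ∈ Set.Icc T (2 * T), Real.log T / 4 ≤ dth t ∧ dth t ≤ Real.log T := by
    intro t ht
    have h1 := hd t (by linarith [ht.1])
    rw [abs_le] at h1
    have h2 : Real.log T ≤ Real.log t := Real.log_le_log hTp ht.1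
    have h3 : Real.log t ≤ Real.log 2 + Real.log T := by
      rw [← Real.log_mul (by norm_num) hTp.ne']
      exact Real.log_le_log (by linarith [ht.1]) ht.2
    have h4 : Real.log 2 ≤ 1 := by
      have := Real.log_two_lt_d9
      linarith
    constructor <;> linarith [h1.1, h1.2]
  have hmono : StrictMonoOn th (Set.Icc T (2 * T)) := by
    refine strictMonoOn_of_deriv_pos (convex_Icc _ _) hthc.continuousOn fun x hx => ?_
    rw [interior_Icc] at hx
    rw [(hTHX.2 x).deriv]
    have := (hdt x ⟨hx.1.le, hx.2.le⟩).1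
    linarith
  have hM0 : 0 ≤ M := (hf0 0).trans (hM 0)
  have hmf : Measurable fun t => f (th t) := hfm.comp hthc.measurable
  have i1 : IntervalIntegrable (fun t => f (th t)) volume T (2 * T) := by
    rw [intervalIntegrable_iff]
    refine Measure.integrableOn_of_bounded (M := M) (by simp [Set.uIoc]) hmf.aestronglyMeasurable ?_
    refine Filter.Eventually.of_forall fun t => ?_
    rw [Real.norm_of_nonneg (hf0 _)]
    exact hM _
  have i2 : IntervalIntegrable (fun t => dth t * f (th t)) volume T (2 * T) := by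
    rw [intervalIntegrable_iff]
    refine Integrable.mul_bdd (c := M) (intervalIntegrable_iff.1 (hcd.intervalIntegrable _ _))
      hmf.aestronglyMeasurable ?_
    refine Filter.Eventually.of_forall fun t => ?_
    rw [Real.norm_of_nonneg (hf0 _)]
    exact hM _
  have s1 : ∫ t in T..(2 * T), f (th t) ≤ 4 / Real.log T * ∫ t in T..(2 * T), dth t * f (th t) := by
    rw [← intervalIntegral.integral_const_mul]
    refine intervalIntegral.integral_mono_on hTT i1 (i2.const_mul _) fun t ht => ?_
    have h1 := (hdt t ht).1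
    have h2 : 1 ≤ 4 / Real.log T * dth t := by
      rw [div_mul_eq_mul_div, le_div_iff₀ hlog0]
      linarith
    calc f (th t) = 1 * f (th t) := (one_mul _).symm
      _ ≤ 4 / Real.log T * dth t * f (th t) := mul_le_mul_of_nonneg_right h2 (hf0 _)
      _ = _ := by ring
  have s2 : ∫ t in T..(2 * T), dth t * f (th t) = ∫ x in th '' Set.Ioc T (2 * T), f x := by
    rw [intervalIntegral.integral_of_le hTT,
      integral_image_eq_integral_abs_deriv_smul measurableSet_Ioc
        (fun x _ => (hTHX.2 x).hasDerivWithinAt)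
        (hmono.injOn.mono Set.Ioc_subset_Icc_self)]
    refine setIntegral_congr_fun measurableSet_Ioc fun t ht => ?_
    have h1 := (hdt t ⟨ht.1.le, ht.2⟩).1
    show dth t * f (th t) = |dth t| • f (th t)
    rw [abs_of_nonneg (by linarith), smul_eq_mul]
  have hab : th T ≤ th (2 * T) :=
    hmono.monotoneOn ⟨le_rfl, hTT⟩ ⟨hTT, le_rfl⟩ hTT
  have hint : ∀ a b : ℝ, IntervalIntegrable f volume a b := by
    intro a b
    rw [intervalIntegrable_iff]
    refine Measure.integrableOn_of_bounded (M := M) (by simp [Set.uIoc]) hfm.aestronglyMeasurable ?_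
    refine Filter.Eventually.of_forall fun t => ?_
    rw [Real.norm_of_nonneg (hf0 _)]
    exact hM _
  have s3 : ∫ x in th '' Set.Ioc T (2 * T), f x ≤ ∫ x in (th T)..(th (2 * T)), f x := by
    rw [intervalIntegral.integral_of_le hab]
    refine setIntegral_mono_set
      ((intervalIntegrable_iff_integrableOn_Ioc_of_le hab).1 (hint _ _))
      (Filter.Eventually.of_forall fun x => hf0 x) (Filter.Eventually.of_forall ?_)
    rintro x ⟨t, ht, rfl⟩
    exact ⟨hmono ⟨le_rfl, hTT⟩ ⟨ht.1.le, ht.2⟩ ht.1,
      hmono.monotoneOn ⟨ht.1.le, ht.2⟩ ⟨hTT, le_rfl⟩ ht.2⟩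
  have s4 : th (2 * T) - th T ≤ T * Real.log T := by
    obtain ⟨c, hc, hc2⟩ := exists_deriv_eq_slope th (show T < 2 * T by linarith) hthc.continuousOn
      (fun x _ => (hTHX.2 x).differentiableAt.differentiableWithinAt)
    rw [(hTHX.2 c).deriv, eq_div_iff (by linarith)] at hc2
    have h1 := (hdt c ⟨hc.1.le, hc.2.le⟩).2
    have h2 : 2 * T - T = T := by ring
    rw [h2] at hc2
    rw [← hc2, mul_comm T]
    exact mul_le_mul_of_nonneg_right h1 hTp.le
  have hI : 0 ≤ ∫ x in (0 : ℝ)..(2 * Real.pi), f x :=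
    intervalIntegral.integral_nonneg (by linarith) fun x _ => hf0 x
  have s5 : ∫ x in (th T)..(th (2 * T)), f x ≤ T * Real.log T * ∫ x in (0 : ℝ)..(2 * Real.pi), f x := by
    set a := th T
    set b := th (2 * T)
    set n := ⌈(b - a) / (2 * Real.pi)⌉₊ with hn
    have hn1 : (b - a) / (2 * Real.pi) ≤ n := Nat.le_ceil _
    have hn2 : (n : ℝ) < (b - a) / (2 * Real.pi) + 1 :=
      Nat.ceil_lt_add_one (div_nonneg (by linarith) (by linarith))
    rw [div_le_iff₀ (by linarith)] at hn1
    have hper' : Function.Periodic f (2 * Real.pi) := hper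
    have e1 := hper'.intervalIntegral_add_zsmul_eq (n : ℤ) a hint
    have e2 := hper'.intervalIntegral_add_eq 0 a
    rw [zero_add] at e2
    rw [← e2] at e1
    have e3 : a + (n : ℤ) • (2 * Real.pi) = a + n * (2 * Real.pi) := by
      rw [zsmul_eq_mul]; push_cast; ring
    have e4 : ((n : ℤ) • ∫ x in (0 : ℝ)..(2 * Real.pi), f x) = n * ∫ x in (0 : ℝ)..(2 * Real.pi), f x := by
      rw [zsmul_eq_mul]; push_cast; ring
    rw [e3, e4] at e1
    have h5 : ∫ x in a..b, f x ≤ ∫ x in a..(a + n * (2 * Real.pi)), f x :=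
      intervalIntegral.integral_mono_interval le_rfl hab (by linarith)
        (Filter.Eventually.of_forall fun x => hf0 x) (hint _ _)
    rw [e1] at h5
    refine h5.trans (mul_le_mul_of_nonneg_right ?_ hI)
    have h6 : (b - a) / (2 * Real.pi) ≤ (T * Real.log T) / 2 := by
      rw [div_le_div_iff₀ (by linarith) (by norm_num)]
      have : 0 ≤ T * Real.log T := by positivity
      nlinarith
    have h7 : 16 ≤ T * Real.log T := by nlinarith
    linarith
  calc ∫ t in T..(2 * T), f (th t) ≤ 4 / Real.log T * ∫ t in T..(2 * T), dth t * f (th t) := s1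
    _ ≤ 4 / Real.log T * (T * Real.log T * ∫ x in (0 : ℝ)..(2 * Real.pi), f x) := by
      refine mul_le_mul_of_nonneg_left ?_ (by positivity)
      rw [s2]
      exact s3.trans s5
    _ = 4 * T * ∫ x in (0 : ℝ)..(2 * Real.pi), f x := by
      field_simp

end HZP
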