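import Pool.Agent.Work.MP_c51bc2_nt_pb.Interface

/-! # FIN: the theorem -/

set_option autoImplicit false

open Finset Complex MeasureTheory HZS

namespace HZP

noncomputable section

theorem FIN_meas (hTHX : Stmt_THX) (hIND : Stmt_IND) (α β : ℝ) :
    Measurable (fun t => ind α β (th t)) ∧ MeasurableSet {t : ℝ | InA α β (th t)} := by
  have hth : Continuous th := continuous_iff_continuousAt.2 fun t => (hTHX.2 t).continuousAt
  have h1 : Measurable (fun t => ind α β (th t)) := (hIND α β).1.comp hth.measurable
  refine ⟨h1, ?_⟩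
  have e1 : {t : ℝ | InA α β (th t)} = (fun t => ind α β (th t)) ⁻¹' {1} := by
    ext t
    simp only [Set.mem_setOf_eq, Set.mem_preimage, Set.mem_singleton_iff, ind]
    split_ifs with h
    · simp [h]
    · simp [h]
  rw [e1]
  exact h1 (measurableSet_singleton 1)

theorem FIN_int (hTHX : Stmt_THX) (hIND : Stmt_IND) {g : ℝ → ℝ} (hg : Continuous g)
    (α β a b : ℝ) : IntervalIntegrable (fun t => g t * ind α β (th t)) volume a b := by
  refine (hg.norm.intervalIntegrable a b).mono_fun' ?_ ?_
  · exact (hg.measurable.mul (FIN_meas hTHX hIND α β).1).aestronglyMeasurable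
  · refine Filter.Eventually.of_forall fun t => ?_
    simp only [norm_mul]
    have h1 := (hIND α β).2.1 (th t)
    have h2 : ‖ind α β (th t)‖ ≤ 1 := by
      rw [Real.norm_eq_abs, abs_of_nonneg h1.1]
      exact h1.2
    calc ‖g t‖ * ‖ind α β (th t)‖ ≤ ‖g t‖ * 1 := by gcongr
      _ = ‖g t‖ := mul_one _

theorem FIN_EA (hTHX : Stmt_THX) (T α β : ℝ) :
    EA T α β = Set.Icc T (2 * T) ∩ {t : ℝ | InA α β (th t)} := by
  ext t
  simp only [EA, Set.mem_setOf_eq, Set.mem_inter_iff, InA]
  rw [hTHX.1 t]
  unfold ph
  rfl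

theorem FIN_E (hTHX : Stmt_THX) (hIND : Stmt_IND) {T : ℝ} (hT : 0 ≤ T) (α β : ℝ) (g : ℝ → ℝ) :
    ∫ t in EA T α β, g t = ∫ t in T..(2 * T), g t * ind α β (th t) := by
  have hTT : T ≤ 2 * T := by linarith
  rw [FIN_EA hTHX, ← setIntegral_indicator (FIN_meas hTHX hIND α β).2, integral_Icc_eq_integral_Ioc,
    intervalIntegral.integral_of_le hTT]
  apply integral_congr_ae
  refine Filter.Eventually.of_forall fun t => ?_
  by_cases h : InA α β (th t)
  · simp [Set.indicator, ind, h]
  · simp [Set.indicator, ind, h]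

theorem stmt_FIN (hTHX : Stmt_THX) (hIND : Stmt_IND) (hSGN : Stmt_SGN) (hLOE : Stmt_LOE)
    (hZC : Stmt_ZC) : Stmt_FIN := by
  have hZ : Continuous Z := hZC
  have hmax : Continuous fun t => max (Z t) 0 := hZ.max continuous_const
  have hmin : Continuous fun t => min (Z t) 0 := hZ.min continuous_const
  have habs : Continuous fun t => |Z t| := hZ.abs
  obtain ⟨C, T1, hC, hT1, hS⟩ := hSGN
  refine ⟨⟨C, T1, hC, hT1, ?_⟩, ?_⟩
  · intro T α β hT h1 h2
    have hT0 : 0 ≤ T := by linarith
    rw [FIN_E hTHX hIND hT0, FIN_E hTHX hIND hT0, ← intervalIntegral.integral_add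
      (FIN_int hTHX hIND hmax α β _ _) (FIN_int hTHX hIND hmin α β _ _)]
    have e1 : (fun t => max (Z t) 0 * ind α β (th t) + min (Z t) 0 * ind α β (th t)) =
        fun t => Z t * ind α β (th t) := by
      funext t
      rw [← add_mul, max_add_min, add_zero]
    rw [e1]
    exact hS T α β hT h1 h2
  · intro η hη
    set η' := min η Real.pi with hη'
    have hη0 : 0 < η' := lt_min hη Real.pi_pos
    obtain ⟨c, T2, hc, hT2, hL⟩ := hLOE η' hη0 (min_le_right _ _)
    have hev : ∀ᶠ T : ℝ in Filter.atTop, T1 ≤ T ∧ T2 ≤ T ∧ 2 * (1 + C) / c ≤ Real.log T ^ (1 / 4 : ℝ) ∧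
        Real.log T ≤ T ^ (1 / 4 : ℝ) := by
      have h3 : Filter.Tendsto (fun T : ℝ => Real.log T ^ (1 / 4 : ℝ)) Filter.atTop Filter.atTop :=
        (tendsto_rpow_atTop (by norm_num)).comp Real.tendsto_log_atTop
      have h4 : ∀ᶠ T : ℝ in Filter.atTop, Real.log T ≤ T ^ (1 / 4 : ℝ) := by
        have h5 := (isLittleO_log_rpow_atTop (show (0 : ℝ) < 1 / 4 by norm_num)).bound
          (show (0 : ℝ) < 1 by norm_num)
        filter_upwards [h5, Filter.eventually_ge_atTop 1] with T h6 h7
        rw [one_mul, Real.norm_of_nonneg (Real.log_nonneg h7),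
          Real.norm_of_nonneg (by positivity)] at h6
        exact h6
      filter_upwards [Filter.eventually_ge_atTop T1, Filter.eventually_ge_atTop T2,
        h3.eventually_ge_atTop (2 * (1 + C) / c), h4] with T a1 a2 a3 a4
      exact ⟨a1, a2, a3, a4⟩
    obtain ⟨T0, hT0⟩ := Filter.eventually_atTop.1 hev
    refine ⟨c / 4, max T0 2, by positivity, lt_of_lt_of_le one_lt_two (le_max_right _ _), ?_⟩
    intro T α β hT hαβ
    obtain ⟨g1, g2, g3, g4⟩ := hT0 T (le_trans (le_max_left _ _) hT)
    have hTp : 0 < T := lt_of_lt_of_le two_pos (le_trans (le_max_right _ _) hT)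
    have hTT : T ≤ 2 * T := by linarith
    set β' := α + η' with hβ'
    have hβ1 : β' ≤ β := by
      have := min_le_left η Real.pi
      linarith
    have hβ2 : β' ≤ α + 2 * Real.pi := by
      have := min_le_right η Real.pi
      have := Real.pi_pos
      linarith
    set a := Real.log T ^ (1 / 4 : ℝ) with ha
    have ha0 : 0 < a := by
      have h5 : 0 < 2 * (1 + C) / c := by positivity
      linarith
    -- the unsigned integral
    have hU := hL T (α + η' / 2) g2
    rw [show α + η' / 2 - η' / 2 = α by ring, show α + η' / 2 + η' / 2 = β' by rw [hβ']; ring] at hU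
    -- the signed integral
    have hV := hS T α β' g1 (by linarith) hβ2
    have hV2 : |∫ t in T..(2 * T), Z t * ind α β' (th t)| ≤ (1 + C) * T := by
      have h6 : |(Real.sin β' - Real.sin α) / Real.pi * T| ≤ T := by
        rw [abs_mul, abs_div, abs_of_pos hTp, abs_of_pos Real.pi_pos]
        have h7 : |Real.sin β' - Real.sin α| ≤ 2 := by
          have h8 := Real.sin_le_one β'
          have h9 := Real.neg_one_le_sin β'
          have h10 := Real.sin_le_one α
          have h11 := Real.neg_one_le_sin α
          rw [abs_le]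
          constructor <;> linarith
        have h12 : |Real.sin β' - Real.sin α| / Real.pi ≤ 1 := by
          rw [div_le_one Real.pi_pos]
          have := Real.pi_gt_three
          linarith
        calc |Real.sin β' - Real.sin α| / Real.pi * T ≤ 1 * T := by gcongr
          _ = T := one_mul T
      have h13 : C * T ^ (3 / 4 : ℝ) * Real.log T ≤ C * T := by
        have h14 : T ^ (3 / 4 : ℝ) * T ^ (1 / 4 : ℝ) = T := by
          rw [← Real.rpow_add hTp]
          norm_num
        calc C * T ^ (3 / 4 : ℝ) * Real.log T ≤ C * T ^ (3 / 4 : ℝ) * T ^ (1 / 4 : ℝ) := by gcongr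
          _ = C * (T ^ (3 / 4 : ℝ) * T ^ (1 / 4 : ℝ)) := by ring
          _ = C * T := by rw [h14]
      have h15 : |∫ t in T..(2 * T), Z t * ind α β' (th t)| ≤
          |(∫ t in T..(2 * T), Z t * ind α β' (th t)) -
            (Real.sin β' - Real.sin α) / Real.pi * T| +
          |(Real.sin β' - Real.sin α) / Real.pi * T| := by
        have := abs_add_le ((∫ t in T..(2 * T), Z t * ind α β' (th t)) -
            (Real.sin β' - Real.sin α) / Real.pi * T) ((Real.sin β' - Real.sin α) / Real.pi * T)
        rwa [sub_add_cancel] at this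
      linarith
    obtain ⟨hV3, hV4⟩ := abs_le.1 hV2
    have hca : (1 + C) * T ≤ c * T * a / 2 := by
      have h16 := (div_le_iff₀ hc).1 g3
      nlinarith
    have e1 : ∫ t in T..(2 * T), |Z t| * ind α β' (th t) =
        2 * (∫ t in T..(2 * T), max (Z t) 0 * ind α β' (th t)) -
          ∫ t in T..(2 * T), Z t * ind α β' (th t) := by
      rw [← intervalIntegral.integral_const_mul, ← intervalIntegral.integral_sub
        ((FIN_int hTHX hIND hmax α β' _ _).const_mul _) (FIN_int hTHX hIND hZ α β' _ _)]
      apply intervalIntegral.integral_congr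
      intro t _
      simp only
      rcases le_total 0 (Z t) with h | h
      · rw [abs_of_nonneg h, max_eq_left h]; ring
      · rw [abs_of_nonpos h, max_eq_right h]; ring
    have e2 : ∫ t in T..(2 * T), |Z t| * ind α β' (th t) =
        (∫ t in T..(2 * T), Z t * ind α β' (th t)) -
          2 * ∫ t in T..(2 * T), min (Z t) 0 * ind α β' (th t) := by
      rw [← intervalIntegral.integral_const_mul, ← intervalIntegral.integral_sub
        (FIN_int hTHX hIND hZ α β' _ _) ((FIN_int hTHX hIND hmin α β' _ _).const_mul _)]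
      apply intervalIntegral.integral_congr
      intro t _
      simp only
      rcases le_total 0 (Z t) with h | h
      · rw [abs_of_nonneg h, min_eq_right h]; ring
      · rw [abs_of_nonpos h, min_eq_left h]; ring
    have hind : ∀ x, ind α β' x ≤ ind α β x := by
      intro x
      by_cases h : InA α β' x
      · have h' : InA α β x := by
          obtain ⟨φ, hφ, h17⟩ := h
          exact ⟨φ, ⟨hφ.1, lt_of_lt_of_le hφ.2 hβ1⟩, h17⟩
        simp [ind, h, h']
      · have h18 : ind α β' x = 0 := by simp [ind, h]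
        rw [h18]
        exact ((hIND α β).2.1 x).1
    have hmon1 : ∫ t in T..(2 * T), max (Z t) 0 * ind α β' (th t) ≤
        ∫ t in T..(2 * T), max (Z t) 0 * ind α β (th t) := by
      apply intervalIntegral.integral_mono_on hTT (FIN_int hTHX hIND hmax α β' _ _)
        (FIN_int hTHX hIND hmax α β _ _)
      intro t _
      exact mul_le_mul_of_nonneg_left (hind _) (le_max_right _ _)
    have hmon2 : ∫ t in T..(2 * T), min (Z t) 0 * ind α β (th t) ≤
        ∫ t in T..(2 * T), min (Z t) 0 * ind α β' (th t) := by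
      apply intervalIntegral.integral_mono_on hTT (FIN_int hTHX hIND hmin α β _ _)
        (FIN_int hTHX hIND hmin α β' _ _)
      intro t _
      exact mul_le_mul_of_nonpos_left (hind _) (min_le_right _ _)
    rw [FIN_E hTHX hIND hTp.le, FIN_E hTHX hIND hTp.le]
    have e3 : c / 4 * T * a = c * T * a / 4 := by ring
    rw [e3]
    constructor <;> linarith

end

end HZP
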