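import Pool.Agent.Work.MP_c51bc2_nt_pb.Interface

set_option autoImplicit false

open Finset Complex MeasureTheory HZS

namespace HZP

theorem ina_iff (α β x : ℝ) : InA α β x ↔
    x ∈ ⋃ n : ℤ, Set.Ioo (α + n * (2 * Real.pi)) (β + n * (2 * Real.pi)) := by
  unfold InA
  rw [Set.mem_iUnion]
  constructor
  · rintro ⟨φ, hφ, h⟩
    rw [Complex.exp_eq_exp_iff_exists_int] at h
    obtain ⟨n, hn⟩ := h
    refine ⟨-n, ?_⟩
    have h2 : φ = x + n * (2 * Real.pi) := by
      have h3 : (I : ℂ) * (φ : ℂ) = I * ((x + n * (2 * Real.pi) : ℝ) : ℂ) := by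
        rw [hn]
        push_cast
        ring
      exact_mod_cast mul_left_cancel₀ Complex.I_ne_zero h3
    rw [h2] at hφ
    push_cast
    exact ⟨by linarith [hφ.1], by linarith [hφ.2]⟩
  · rintro ⟨n, hn⟩
    refine ⟨x - n * (2 * Real.pi), ⟨by linarith [hn.1], by linarith [hn.2]⟩, ?_⟩
    rw [Complex.exp_eq_exp_iff_exists_int]
    refine ⟨-n, ?_⟩
    push_cast
    ring

theorem stmt_IND : Stmt_IND := by
  intro α β
  have hopen : MeasurableSet {x : ℝ | InA α β x} := by
    have h : {x : ℝ | InA α β x} =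
        ⋃ n : ℤ, Set.Ioo (α + n * (2 * Real.pi)) (β + n * (2 * Real.pi)) := by
      ext x
      exact ina_iff α β x
    rw [h]
    exact (isOpen_iUnion fun n => isOpen_Ioo).measurableSet
  refine ⟨?_, fun x => ?_, fun x => ?_⟩
  · unfold ind
    exact Measurable.ite hopen measurable_const measurable_const
  · unfold ind
    split_ifs
    · exact ⟨zero_le_one, le_rfl⟩
    · exact ⟨le_rfl, zero_le_one⟩
  · have h : InA α β (x + 2 * Real.pi) ↔ InA α β x := by
      unfold InA
      have e : cexp (I * ((x + 2 * Real.pi : ℝ) : ℂ)) = cexp (I * (x : ℂ)) := by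
        rw [Complex.exp_eq_exp_iff_exists_int]
        refine ⟨1, ?_⟩
        push_cast
        ring
      rw [e]
    unfold ind
    by_cases hx : InA α β x
    · rw [if_pos (h.2 hx), if_pos hx]
    · rw [if_neg (fun h' => hx (h.1 h')), if_neg hx]

end HZP
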