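import Pool.Agent.Work.MP_c51bc2_nt_pb.Interface

set_option autoImplicit false

open Finset Complex MeasureTheory HZS

namespace HZP

namespace KR

/-- the binomial weights -/
noncomputable def c (n j : ℕ) : ℝ := ((2 * n).choose j : ℝ) / 4 ^ n

noncomputable def u (n : ℕ) : ℝ := (n : ℝ) * (n - 1) / ((n + 1) * (n + 2))

noncomputable def A (n : ℕ) (d k : ℤ) : ℝ :=
  ∑ j ∈ range (2 * n + 1), if ((j : ℤ) - n + d = k) then c n j else 0

theorem c_nonneg (n j : ℕ) : 0 ≤ c n j := by unfold c; positivity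

theorem A_nonneg (n : ℕ) (d k : ℤ) : 0 ≤ A n d k := by
  apply Finset.sum_nonneg
  intro j _
  split_ifs
  · exact c_nonneg n j
  · exact le_rfl

theorem c_sum (n : ℕ) : ∑ j ∈ range (2 * n + 1), c n j = 1 := by
  unfold c
  rw [← Finset.sum_div, div_eq_one_iff_eq (by positivity)]
  have h := Nat.sum_range_choose (2 * n)
  have h2 : ((∑ j ∈ range (2 * n + 1), (2 * n).choose j : ℕ) : ℝ) = ((2 ^ (2 * n) : ℕ) : ℝ) := by
    rw [h]
  push_cast at h2
  rw [h2, pow_mul]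
  norm_num

theorem u_nonneg {n : ℕ} (hn : 2 ≤ n) : 0 ≤ u n := by
  unfold u
  have h : (2 : ℝ) ≤ n := by exact_mod_cast hn
  apply div_nonneg
  · nlinarith
  · positivity

theorem u_le {n : ℕ} (hn : 2 ≤ n) : u n ≤ 1 := by
  unfold u
  have h : (2 : ℝ) ≤ n := by exact_mod_cast hn
  rw [div_le_one (by positivity)]
  nlinarith

theorem one_sub_u {n : ℕ} (hn : 2 ≤ n) : 1 / (n : ℝ) ≤ 1 - u n := by
  unfold u
  have h : (2 : ℝ) ≤ n := by exact_mod_cast hn
  have h1 : (1 : ℝ) - (n : ℝ) * (n - 1) / ((n + 1) * (n + 2)) =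
      (4 * n + 2) / ((n + 1) * (n + 2)) := by
    field_simp
    ring
  rw [h1, div_le_div_iff₀ (by linarith) (by positivity)]
  nlinarith

theorem c_up {n : ℕ} (hn : 2 ≤ n) : c n (n + 2) = u n * c n n := by
  unfold c u
  have h1 := Nat.choose_succ_right_eq (2 * n) n
  have h2 := Nat.choose_succ_right_eq (2 * n) (n + 1)
  have e1 : 2 * n - n = n := by omega
  have e2 : 2 * n - (n + 1) = n - 1 := by omega
  rw [e1] at h1
  rw [e2] at h2
  have h1' : ((2 * n).choose (n + 1) : ℝ) * (n + 1) = (2 * n).choose n * n := by exact_mod_cast h1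
  have h2' : ((2 * n).choose (n + 2) : ℝ) * (n + 2) = (2 * n).choose (n + 1) * (n - 1) := by
    have h3 : (((2 * n).choose (n + 1 + 1) * (n + 1 + 1) : ℕ) : ℝ) =
        (((2 * n).choose (n + 1) * (n - 1) : ℕ) : ℝ) := by rw [h2]
    push_cast [Nat.cast_sub (show 1 ≤ n by omega)] at h3
    rw [← h3]
    ring
  have h4 : (0 : ℝ) < 4 ^ n := by positivity
  have h5 : (0 : ℝ) < (n : ℝ) + 1 := by positivity
  have h6 : (0 : ℝ) < (n : ℝ) + 2 := by positivity
  rw [mul_div_assoc', div_left_inj' h4.ne', div_mul_eq_mul_div, eq_div_iff (by positivity)]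
  calc ((2 * n).choose (n + 2) : ℝ) * ((n + 1) * (n + 2)) =
        ((2 * n).choose (n + 2) : ℝ) * (n + 2) * (n + 1) := by ring
    _ = ((2 * n).choose (n + 1) : ℝ) * (n + 1) * (n - 1) := by rw [h2']; ring
    _ = _ := by rw [h1']; ring

theorem c_down {n : ℕ} (hn : 2 ≤ n) : c n (n - 2) = c n (n + 2) := by
  unfold c
  have h : (2 * n).choose (n - 2) = (2 * n).choose (n + 2) := by
    rw [← Nat.choose_symm (show n - 2 ≤ 2 * n by omega)]
    congr 1
    omega
  rw [h]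

theorem c_mid {n : ℕ} (hn : 2 ≤ n) : 1 / (2 * (n : ℝ)) ≤ c n n := by
  unfold c
  have h := Nat.four_pow_le_two_mul_self_mul_centralBinom n (by omega)
  rw [Nat.centralBinom] at h
  have h' : (4 : ℝ) ^ n ≤ 2 * n * (2 * n).choose n := by exact_mod_cast h
  have h2 : (2 : ℝ) ≤ n := by exact_mod_cast hn
  rw [div_le_div_iff₀ (by linarith) (by positivity)]
  linarith

theorem A_eq (n : ℕ) (d k : ℤ) (j0 : ℕ) (h0 : j0 ≤ 2 * n) (h : (j0 : ℤ) - n + d = k) :
    A n d k = c n j0 := by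
  unfold A
  rw [Finset.sum_eq_single j0]
  · rw [if_pos h]
  · intro j _ hj
    rw [if_neg]
    intro hk
    apply hj
    omega
  · intro hj
    exact absurd (Finset.mem_range.2 (by omega)) hj

theorem A_sum (n : ℕ) (d : ℤ) (hd : d = 0 ∨ d = 2) (y : ℂ) :
    ∑ k ∈ Icc (-(n : ℤ)) (n + 2), (A n d k : ℂ) * y ^ k =
      ∑ j ∈ range (2 * n + 1), (c n j : ℂ) * y ^ ((j : ℤ) - n + d) := by
  unfold A
  simp only [ofReal_sum, Finset.sum_mul]
  rw [Finset.sum_comm]
  apply Finset.sum_congr rfl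
  intro j hj
  rw [Finset.mem_range] at hj
  rw [Finset.sum_eq_single ((j : ℤ) - n + d)]
  · rw [if_pos rfl]
  · intro k _ hk
    rw [if_neg (fun h => hk h.symm)]
    simp
  · intro h
    exact absurd (Finset.mem_Icc.2 (by omega)) h

theorem A_sum1 (n : ℕ) (d : ℤ) (hd : d = 0 ∨ d = 2) :
    ∑ k ∈ Icc (-(n : ℤ)) (n + 2), A n d k = 1 := by
  have h := A_sum n d hd 1
  simp only [one_zpow, mul_one] at h
  rw [← c_sum n]
  exact_mod_cast h

theorem pow_sum (n : ℕ) (d : ℤ) {y : ℂ} (hy : y ≠ 0) :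
    ∑ j ∈ range (2 * n + 1), (c n j : ℂ) * y ^ ((j : ℤ) - n + d) =
      (1 + y) ^ (2 * n) / 4 ^ n * y ^ (-(n : ℤ)) * y ^ d := by
  rw [add_comm (1 : ℂ) y, add_pow, Finset.sum_div, Finset.sum_mul, Finset.sum_mul]
  apply Finset.sum_congr rfl
  intro j _
  rw [zpow_add₀ hy, sub_eq_add_neg, zpow_add₀ hy, zpow_natCast]
  unfold c
  push_cast
  ring

theorem norm_one_add (y : ℝ) : ‖(1 : ℂ) + cexp (I * (y : ℂ))‖ ^ 2 = 2 + 2 * Real.cos y := by
  rw [← Complex.normSq_eq_norm_sq, Complex.normSq_apply, mul_comm I]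
  simp only [Complex.add_re, Complex.one_re, Complex.add_im, Complex.one_im,
    Complex.exp_ofReal_mul_I_re, Complex.exp_ofReal_mul_I_im]
  nlinarith [Real.sin_sq_add_cos_sq y]

theorem cos_le {η φ x : ℝ} (h0 : 0 < η) (hπ : η ≤ Real.pi)
    (h : ¬ InA (φ - η / 2) (φ + η / 2) x) : Real.cos (x - φ) ≤ Real.cos (η / 2) := by
  have hp := Real.pi_pos
  set y := toIocMod Real.two_pi_pos (-Real.pi) (x - φ) with hy
  have h1 := toIocMod_mem_Ioc Real.two_pi_pos (-Real.pi) (x - φ)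
  rw [← hy] at h1
  set m := toIocDiv Real.two_pi_pos (-Real.pi) (x - φ) with hm
  have h2 : y + m • (2 * Real.pi) = x - φ := toIocMod_add_toIocDiv_zsmul _ _ _
  have h3 : Real.cos (x - φ) = Real.cos y := by
    rw [← h2, zsmul_eq_mul, Real.cos_add_int_mul_two_pi]
  rw [h3, ← Real.cos_abs y]
  apply Real.cos_le_cos_of_nonneg_of_le_pi (by positivity)
  · rw [abs_le]
    exact ⟨h1.1.le, by linarith [h1.2]⟩
  · by_contra hlt
    push Not at hlt
    rw [abs_lt] at hlt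
    apply h
    refine ⟨φ + y, ⟨by linarith [hlt.1], by linarith [hlt.2]⟩, ?_⟩
    rw [Complex.exp_eq_exp_iff_exists_int]
    refine ⟨-m, ?_⟩
    have h4 : x = φ + y + m * (2 * Real.pi) := by
      rw [zsmul_eq_mul] at h2
      linarith
    rw [h4]
    push_cast
    ring

theorem stmt_KRN : Stmt_KRN := by
  intro η h0 hπ
  have hp := Real.pi_pos
  have hc0 : 0 ≤ Real.cos (η / 2) := Real.cos_nonneg_of_neg_pi_div_two_le_of_le (by linarith)
    (by linarith)
  have hc1 : Real.cos (η / 2) < 1 := by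
    rw [← Real.cos_zero]
    exact Real.cos_lt_cos_of_nonneg_of_le_pi le_rfl (by linarith) (by linarith)
  refine ⟨(1 + Real.cos (η / 2)) / 2, by linarith, by linarith, ?_⟩
  intro n hn φ
  set w : ℂ := cexp (-(I * (φ : ℂ))) with hw
  have hw1 : ‖w‖ = 1 := by
    rw [hw, show -(I * (φ : ℂ)) = ((-φ : ℝ) : ℂ) * I by push_cast; ring]
    exact Complex.norm_exp_ofReal_mul_I _
  have hw0 : w ≠ 0 := Complex.exp_ne_zero _
  set f : ℤ → ℂ := fun k => ((A n 0 k - u n * A n 2 k : ℝ) : ℂ) * w ^ k with hf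
  have hu0 := u_nonneg hn
  have hu1 := u_le hn
  have hf2 : f 2 = 0 := by
    rw [hf]
    simp only
    rw [A_eq n 0 2 (n + 2) (by omega) (by push_cast; ring), A_eq n 2 2 n (by omega) (by ring),
      c_up hn]
    simp
  have hf0 : f 0 = ((c n n * (1 - u n ^ 2) : ℝ) : ℂ) := by
    rw [hf]
    simp only
    rw [A_eq n 0 0 n (by omega) (by ring), A_eq n 2 0 (n - 2) (by omega) (by omega), c_down hn,
      c_up hn]
    rw [zpow_zero, mul_one]
    congr 1
    ring
  set K := Icc (-(n : ℤ)) (n + 2) with hK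
  have hsumz : ∀ z : ℂ, ∑ k ∈ K.erase 2, f k * z ^ k = ∑ k ∈ K, f k * z ^ k := by
    intro z
    apply Finset.sum_erase
    rw [hf2, zero_mul]
  have hnf : ∀ k, ‖f k‖ ≤ A n 0 k + u n * A n 2 k := by
    intro k
    rw [hf]
    simp only
    rw [norm_mul, norm_zpow, hw1, one_zpow, mul_one, Complex.norm_real, Real.norm_eq_abs]
    refine (abs_sub _ _).trans ?_
    rw [abs_of_nonneg (A_nonneg n 0 k), abs_of_nonneg (mul_nonneg hu0 (A_nonneg n 2 k))]
  have hns : ∑ k ∈ K.erase 2, ‖f k‖ ≤ 2 := by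
    refine (Finset.sum_le_sum_of_subset_of_nonneg (Finset.erase_subset 2 K)
      fun _ _ _ => norm_nonneg _).trans ?_
    refine (Finset.sum_le_sum fun k _ => hnf k).trans ?_
    rw [Finset.sum_add_distrib, ← Finset.mul_sum, A_sum1 n 0 (Or.inl rfl),
      A_sum1 n 2 (Or.inr rfl)]
    linarith
  refine ⟨K.erase 2, f, Finset.notMem_erase 2 K, ?_, ?_, ?_, hns, ?_⟩
  · rw [Finset.mem_erase]
    exact ⟨by norm_num, Finset.mem_Icc.2 (by omega)⟩
  · intro z hz
    refine (norm_sum_le _ _).trans (le_trans (le_of_eq ?_) hns)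
    apply Finset.sum_congr rfl
    intro k _
    rw [norm_mul, norm_zpow, hz, one_zpow, mul_one]
  · rw [hf0, Complex.norm_real, Real.norm_eq_abs]
    refine le_trans ?_ (le_abs_self _)
    have h1 := c_mid hn
    have h2 := one_sub_u hn
    have h3 : 1 / (n : ℝ) ≤ 1 - u n ^ 2 := by nlinarith
    have h4 : (0 : ℝ) < 1 / n := by
      have : (2 : ℝ) ≤ n := by exact_mod_cast hn
      positivity
    calc 1 / (2 * (n : ℝ) ^ 2) = 1 / (2 * n) * (1 / n) := by
          field_simp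
      _ ≤ c n n * (1 - u n ^ 2) := mul_le_mul h1 h3 h4.le (c_nonneg n n)
  · intro x hx
    rw [hsumz]
    set y : ℂ := w * cexp (I * (x : ℂ)) with hy
    have hy0 : y ≠ 0 := mul_ne_zero hw0 (Complex.exp_ne_zero _)
    have hyx : y = cexp (I * ((x - φ : ℝ) : ℂ)) := by
      rw [hy, hw, ← Complex.exp_add]
      congr 1
      push_cast
      ring
    have hy1 : ‖y‖ = 1 := by
      rw [hyx, mul_comm]
      exact Complex.norm_exp_ofReal_mul_I _
    have h1 : ∑ k ∈ K, f k * cexp (I * (x : ℂ)) ^ k =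
        (1 + y) ^ (2 * n) / 4 ^ n * y ^ (-(n : ℤ)) * (1 - u n * y ^ (2 : ℤ)) := by
      have h2 : ∀ k ∈ K, f k * cexp (I * (x : ℂ)) ^ k =
          (A n 0 k : ℂ) * y ^ k - u n * ((A n 2 k : ℂ) * y ^ k) := by
        intro k _
        rw [hf, hy]
        simp only
        rw [mul_zpow]
        push_cast
        ring
      rw [Finset.sum_congr rfl h2, Finset.sum_sub_distrib, ← Finset.mul_sum,
        A_sum n 0 (Or.inl rfl), A_sum n 2 (Or.inr rfl), pow_sum n 0 hy0, pow_sum n 2 hy0, zpow_zero]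
      ring
    rw [h1, norm_mul, norm_mul, norm_zpow, hy1, one_zpow, mul_one, norm_div, norm_pow, norm_pow,
      pow_mul]
    have h3 : ‖(1 : ℂ) + y‖ ^ 2 ≤ 2 + 2 * Real.cos (η / 2) := by
      rw [hyx, norm_one_add]
      linarith [cos_le h0 hπ hx]
    have h4 : (‖(1 : ℂ) + y‖ ^ 2) ^ n / ‖(4 : ℂ)‖ ^ n ≤ ((1 + Real.cos (η / 2)) / 2) ^ n := by
      rw [← div_pow]
      apply pow_le_pow_left₀ (by positivity)
      have h5 : ‖(4 : ℂ)‖ = 4 := by norm_num
      rw [h5]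
      linarith
    have h6 : ‖1 - (u n : ℂ) * y ^ (2 : ℤ)‖ ≤ 2 := by
      refine (norm_sub_le _ _).trans ?_
      rw [norm_one, norm_mul, norm_zpow, hy1, one_zpow, mul_one, Complex.norm_real,
        Real.norm_eq_abs, abs_of_nonneg hu0]
      linarith
    calc (‖(1 : ℂ) + y‖ ^ 2) ^ n / ‖(4 : ℂ)‖ ^ n * ‖1 - (u n : ℂ) * y ^ (2 : ℤ)‖
        ≤ ((1 + Real.cos (η / 2)) / 2) ^ n * 2 :=
          mul_le_mul h4 h6 (norm_nonneg _) (by positivity)
      _ = 2 * ((1 + Real.cos (η / 2)) / 2) ^ n := by ring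

end KR

theorem stmt_KRN : Stmt_KRN := KR.stmt_KRN

end HZP
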