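import Pool.Agent.Work.MP_c51bc2_nt_pb.Interface
import Pool.Agent.Work.MP_c51bc2_nt_s.B_LBFs
import Pool.Agent.Work.MP_c51bc2_nt.B_TW
import Pool.Agent.Work.MP_c51bc2_nt_lb.B_NBN

set_option autoImplicit false

open Finset Complex MeasureTheory HZS

namespace HZP

theorem LBW_zeta_cont : Continuous fun t : ℝ => riemannZeta (1 / 2 + I * (t : ℂ)) := by
  rw [continuous_iff_continuousAt]
  intro t
  have h : (1 / 2 + I * (t : ℂ)) ≠ 1 := by
    intro h
    have := congrArg Complex.re h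
    simp at this
  exact ContinuousAt.comp (f := fun t : ℝ => (1 / 2 + I * (t : ℂ))) (g := riemannZeta)
    (differentiableAt_riemannZeta h).continuousAt (by fun_prop)

/-- the upper bound for the twisted integral with a weight -/
theorem LBW_upper (h5 : Stmt_TU) (h8 : Stmt_RZ) (h9 : Stmt_PHS) (h10 : Stmt_ZC)
    {L T H A B0 w : ℝ} {R : ℕ} {X lam : ℕ → ℝ} (hc : IsChain L R X lam) (hH : 0 < H) (hw : 0 < w)
    (hA : ∫ t in T..(T + H), |Z t| ^ 2 * ‖MM X lam (range R) t‖ ^ 2 ≤ A)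
    (hB : ∀ j < R, ∫ t in T..(T + H), ‖NN X lam (range R) t‖ ^ 2 * ‖PP X j t‖ ^ (2 * mm lam j) ≤
      B0 * Real.exp (lam j / 2) * (((mm lam j).factorial : ℝ) * (2 * lam j) ^ (mm lam j)))
    (hB0 : 0 ≤ B0) (hA0 : 0 ≤ A) (hs : ∑ j ∈ range R, Real.exp (-lam j) ≤ 1 / w ^ 4)
    {g : ℝ → ℂ} (hg : Continuous g) (hg2 : ∀ t, ‖g t‖ ≤ 2) :
    ‖∫ t in T..(T + H), riemannZeta (1 / 2 + I * t) * MM X lam (range R) t *
        (starRingEnd ℂ) (NN X lam (range R) t) * g t‖ ≤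
      2 * (∫ t in T..(T + H), |Z t| * ‖g t‖) +
        2 * ((A / (2 * w ^ 2) + w ^ 2 / 2 * B0) * (1 / w ^ 4)) := by
  have cZ : Continuous Z := h10
  have cM := LBF_MM_cont X lam (range R)
  have cN := LBF_NN_cont X lam (range R)
  have hle : T ≤ T + H := by linarith
  have e1 : ‖∫ t in T..(T + H), riemannZeta (1 / 2 + I * t) * MM X lam (range R) t *
        (starRingEnd ℂ) (NN X lam (range R) t) * g t‖ ≤
      ∫ t in T..(T + H), |Z t| * (‖MM X lam (range R) t‖ * ‖NN X lam (range R) t‖) * ‖g t‖ := by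
    refine le_trans (intervalIntegral.norm_integral_le_integral_norm hle) (le_of_eq ?_)
    apply intervalIntegral.integral_congr
    intro t _
    simp only [norm_mul, RCLike.norm_conj, LBF_zeta h8 h9 t]
    ring
  have hq : ∀ j, Continuous fun t => |Z t| * (‖MM X lam (range R) t‖ * ‖NN X lam (range R) t‖ *
      (5 * ‖PP X j t‖ / (KK lam j : ℝ)) ^ (mm lam j)) := by
    intro j
    have cP := LBF_PP_cont X j
    fun_prop
  have e2 : ∫ t in T..(T + H), |Z t| * (‖MM X lam (range R) t‖ * ‖NN X lam (range R) t‖) *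
        ‖g t‖ ≤
      ∫ t in T..(T + H), (2 * (|Z t| * ‖g t‖) + 2 * ∑ j ∈ range R, |Z t| *
        (‖MM X lam (range R) t‖ *
        ‖NN X lam (range R) t‖ * (5 * ‖PP X j t‖ / (KK lam j : ℝ)) ^ (mm lam j))) := by
    apply intervalIntegral.integral_mono_on hle
    · apply Continuous.intervalIntegrable
      fun_prop
    · apply Continuous.intervalIntegrable
      apply Continuous.add
      · fun_prop
      · apply Continuous.mul continuous_const
        apply continuous_finsetSum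
        intro j _
        exact hq j
    · intro t _
      have h := h5 L R X lam hc t
      have h' := mul_le_mul_of_nonneg_left h (abs_nonneg (Z t))
      rw [mul_add, Finset.mul_sum] at h'
      have h0 : 0 ≤ ∑ j ∈ range R, |Z t| * (‖MM X lam (range R) t‖ *
        ‖NN X lam (range R) t‖ * (5 * ‖PP X j t‖ / (KK lam j : ℝ)) ^ (mm lam j)) := by
        apply Finset.sum_nonneg
        intro j _
        positivity
      have h'' := mul_le_mul_of_nonneg_right h' (norm_nonneg (g t))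
      have h3 := mul_le_mul_of_nonneg_left (hg2 t) h0
      nlinarith
  have e3 : ∫ t in T..(T + H), (2 * (|Z t| * ‖g t‖) + 2 * ∑ j ∈ range R, |Z t| *
        (‖MM X lam (range R) t‖ *
        ‖NN X lam (range R) t‖ * (5 * ‖PP X j t‖ / (KK lam j : ℝ)) ^ (mm lam j))) =
      2 * (∫ t in T..(T + H), |Z t| * ‖g t‖) + 2 * ∑ j ∈ range R, ∫ t in T..(T + H),
        |Z t| * (‖MM X lam (range R) t‖ * ‖NN X lam (range R) t‖ *
          (5 * ‖PP X j t‖ / (KK lam j : ℝ)) ^ (mm lam j)) := by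
    rw [intervalIntegral.integral_add, intervalIntegral.integral_const_mul,
      intervalIntegral.integral_const_mul, intervalIntegral.integral_finsetSum]
    · intro j _
      exact (hq j).intervalIntegrable _ _
    · apply Continuous.intervalIntegrable
      fun_prop
    · apply Continuous.intervalIntegrable
      apply Continuous.mul continuous_const
      apply continuous_finsetSum
      intro j _
      exact hq j
  have e4 : ∑ j ∈ range R, ∫ t in T..(T + H),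
        |Z t| * (‖MM X lam (range R) t‖ * ‖NN X lam (range R) t‖ *
          (5 * ‖PP X j t‖ / (KK lam j : ℝ)) ^ (mm lam j)) ≤
      ∑ j ∈ range R, (A / (2 * w ^ 2) + w ^ 2 / 2 * B0) * Real.exp (-lam j) := by
    apply Finset.sum_le_sum
    intro j hj
    have hj' := Finset.mem_range.1 hj
    have hμ : 0 < Real.exp (-lam j) / w ^ 2 := by positivity
    refine le_trans (LBFs_term h10 hH hμ (hc.lam1 j hj') hA (hB j hj') hB0) (le_of_eq ?_)
    have e5 : Real.exp (-(2 * lam j)) = Real.exp (-lam j) * Real.exp (-lam j) := by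
      rw [← Real.exp_add]
      congr 1
      ring
    rw [e5]
    have hE : Real.exp (-lam j) ≠ 0 := (Real.exp_pos _).ne'
    field_simp
  rw [← Finset.mul_sum] at e4
  have e6 : (A / (2 * w ^ 2) + w ^ 2 / 2 * B0) * ∑ j ∈ range R, Real.exp (-lam j) ≤
      (A / (2 * w ^ 2) + w ^ 2 / 2 * B0) * (1 / w ^ 4) :=
    mul_le_mul_of_nonneg_left hs (by positivity)
  linarith

theorem stmt_LBW (h1 : Stmt_TW0s) (h2 : Stmt_MO2s) (h3 : Stmt_TFs) (h4 : Stmt_DL) (h5 : Stmt_TU)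
    (h6 : Stmt_CO) (h7 : Stmt_PARs) (h8 : Stmt_RZ) (h9 : Stmt_PHS) (h10 : Stmt_ZC)
    (hK : Stmt_TFK) : Stmt_LBW := by
  have hδ : (0 : ℝ) < 1 / 20 := by norm_num
  have hδ' : (1 / 20 : ℝ) ≤ 1 / 20 := le_rfl
  set δ : ℝ := 1 / 20 with hδd
  obtain ⟨C1, T1, hC1, -, tw⟩ := h1 δ hδ hδ'
  obtain ⟨C2, T2, hC2, -, mo2⟩ := h2
  obtain ⟨C3, T3, hC3, -, tf⟩ := h3 δ hδ hδ'
  obtain ⟨CK, TK, hCK, -, tfk⟩ := hK
  obtain ⟨c4, hc4, dl⟩ := h4
  obtain ⟨W0, L0, hW0, hL0, par⟩ := h7 δ hδ hδ'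
  refine ⟨c4, C1 + C2, W0, hc4, by positivity, by linarith, ?_⟩
  intro w hw1
  have hw8 : 8 ≤ w := le_trans hW0 hw1
  have hw0 : 0 < w := by linarith
  have hw4 : w ≤ w ^ 4 := by
    calc w = w ^ 1 := (pow_one w).symm
      _ ≤ w ^ 4 := pow_le_pow_right₀ (by linarith) (by norm_num)
  have hev : ∀ᶠ T : ℝ in Filter.atTop, (T1 ≤ T ∧ T2 ≤ T ∧ T3 ≤ T ∧ TK ≤ T ∧ 1 ≤ T) ∧
      (L0 ≤ Real.log T ∧ 5 * w ^ 4 ≤ Real.log T ∧ 1 ≤ Real.log T) ∧ 2 ≤ T ^ (δ / 3) := by
    refine ((Filter.eventually_ge_atTop T1).and ((Filter.eventually_ge_atTop T2).and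
      ((Filter.eventually_ge_atTop T3).and ((Filter.eventually_ge_atTop TK).and
        (Filter.eventually_ge_atTop _))))).and
      (((Real.tendsto_log_atTop.eventually_ge_atTop L0).and
        ((Real.tendsto_log_atTop.eventually_ge_atTop _).and
          (Real.tendsto_log_atTop.eventually_ge_atTop 1))).and
          ((tendsto_rpow_atTop (by positivity)).eventually_ge_atTop _))
  obtain ⟨T0, hT0⟩ := Filter.eventually_atTop.1 hev
  refine ⟨C3 + CK, max T0 2, by positivity, lt_of_lt_of_le one_lt_two (le_max_right _ _), ?_⟩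
  intro T S f hT hS2 hS0 hS
  obtain ⟨⟨g1, g2, g3, gK, g4⟩, ⟨g5, g6, g7⟩, g9⟩ := hT0 T (le_trans (le_max_left _ _) hT)
  have hTp : 0 < T := lt_of_lt_of_le (by norm_num) g4
  have hadm : Adm δ T T := by
    refine ⟨?_, le_rfl⟩
    calc T ^ (1 / 2 + 4 * δ) ≤ T ^ (1 : ℝ) := Real.rpow_le_rpow_of_exponent_le g4 (by
          rw [hδd]; norm_num)
      _ = T := Real.rpow_one T
  have hHh : T ^ (1 / 2 : ℝ) ≤ T := by
    calc T ^ (1 / 2 : ℝ) ≤ T ^ (1 : ℝ) := Real.rpow_le_rpow_of_exponent_le g4 (by norm_num)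
      _ = T := Real.rpow_one T
  set L := Real.log T with hL
  have hLp : 0 < L := by linarith
  set a := L ^ (1 / 4 : ℝ) with ha
  have hap : 0 < a := Real.rpow_pos_of_pos hLp _
  have ha4 : a ^ 4 = L := by
    rw [ha, ← Real.rpow_natCast, ← Real.rpow_mul hLp.le]
    norm_num
  obtain ⟨R, X, lam, hc, hsh, hXR, hsum⟩ := par L (w ^ 4) g5 (le_trans hw1 hw4) (by linarith)
  have hlog : Real.log (X R) = (a / w) ^ 4 := by
    rw [hXR, Real.log_exp, div_pow, ha4]
  have haw : 0 < a / w := by positivity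
  have hlog8 : Real.log (X R) ≤ L / 8 := by
    rw [hXR, Real.log_exp]
    apply div_le_div_of_nonneg_left hLp.le (by norm_num)
    linarith
  have hA := tw T T R X lam g1 hadm hc hsh R le_rfl hlog8
  rw [hlog, LBF_rp2 _ haw] at hA
  have hB : ∀ j < R, ∫ t in T..(T + T), ‖NN X lam (range R) t‖ ^ 2 *
      ‖PP X j t‖ ^ (2 * mm lam j) ≤ (C2 * T * (a / w)) * Real.exp (lam j / 2) *
        (((mm lam j).factorial : ℝ) * (2 * lam j) ^ (mm lam j)) := by
    intro j hj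
    have h := mo2 T T R X lam g2 hHh hc j hj
    rw [hlog, LBF_rp1 _ haw] at h
    exact h
  -- the weight
  obtain ⟨cph, -, nph, -⟩ := id h9
  have phne : ∀ t, ph t ≠ 0 := fun t h => by
    have := nph t
    rw [h, norm_zero] at this
    norm_num at this
  have cpk : ∀ k : ℤ, Continuous fun t => ph t ^ k := fun k =>
    cph.zpow₀ k fun t => Or.inl (phne t)
  set g : ℝ → ℂ := fun t => ∑ k ∈ S, f k * ph t ^ k with hg
  have cg : Continuous g := by
    rw [hg]
    apply continuous_finsetSum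
    intro k _
    exact continuous_const.mul (cpk k)
  have hg2 : ∀ t, ‖g t‖ ≤ 2 := fun t => hS _ (nph t)
  have hup := LBW_upper h5 h8 h9 h10 hc hTp hw0 hA hB (by positivity) (by positivity) hsum cg hg2
  -- the lower bound
  set Y := ⌊T ^ δ⌋₊ with hY
  have hY1 : T ^ (2 * δ / 3) ≤ (Y : ℝ) := LBFs_floor T δ hδ hTp g9
  have hY2 : (Y : ℝ) ≤ T ^ δ := Nat.floor_le (by positivity)
  have hlen : Real.exp (∑ i ∈ range R, (KK lam i : ℝ) * Real.log (X (i + 1))) ≤ Y := by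
    have h11 := LBFs_len hδ hLp.le hc hsh (fun j hj => Real.log_nonneg
      (by linarith [LBF_ge hc (show j + 1 ≤ R from hj)]))
    refine le_trans (Real.exp_le_exp.2 h11) (le_trans (le_of_eq ?_) hY1)
    rw [Real.rpow_def_of_pos hTp]
  have htf := tf T T R X lam g3 hadm hc hsh Y hY1 hY2
  have hdl := dl L R X lam hc Y hlen
  rw [hlog, LBF_rp1 _ haw] at hdl
  obtain ⟨hMD, hND, -, -⟩ := h6 L R X lam hc (range R) (Finset.Subset.refl _) Y hlen
  set Ss : ℂ := ∑ n ∈ Icc 1 Y, cN X lam (range R) n * B (cM X lam (range R)) 0 n / (n : ℂ)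
    with hSs
  set P : ℝ → ℂ := fun t => riemannZeta (1 / 2 + I * t) * MM X lam (range R) t *
        (starRingEnd ℂ) (NN X lam (range R) t) with hP
  have cP : Continuous P := by
    rw [hP]
    exact (LBW_zeta_cont.mul (LBF_MM_cont X lam (range R))).mul
      (Complex.continuous_conj.comp (LBF_NN_cont X lam (range R)))
  -- the twisted moments
  have htw : ∀ k : ℤ, k ≠ 0 → k ≠ 2 → ‖∫ t in T..(T + T), P t * ph t ^ k‖ ≤
      CK * T ^ (9 / 10 : ℝ) := by
    intro k hk0 hk2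
    have h := tfk T Y (cM X lam (range R)) (cN X lam (range R)) k gK hY2
      (fun n => TW_cM X lam (range R) n) (fun n => NBN_cN_le X lam (range R) n) hk0 hk2
    rw [two_mul] at h
    refine le_trans (le_of_eq ?_) h
    congr 1
    apply intervalIntegral.integral_congr
    intro t _
    simp only [hP]
    rw [hMD t, hND t]
  have hT9 : T ^ (1 / 2 + 3 * δ) ≤ T ^ (9 / 10 : ℝ) :=
    Real.rpow_le_rpow_of_exponent_le g4 (by rw [hδd]; norm_num)
  have hQF : ∫ t in T..(T + T), P t * g t =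
      ∑ k ∈ S, f k * ∫ t in T..(T + T), P t * ph t ^ k := by
    have e1 : ∀ t, P t * g t = ∑ k ∈ S, f k * (P t * ph t ^ k) := by
      intro t
      rw [hg]
      simp only
      rw [Finset.mul_sum]
      apply Finset.sum_congr rfl
      intro k _
      ring
    rw [intervalIntegral.integral_congr (g := fun t => ∑ k ∈ S, f k * (P t * ph t ^ k))
      (fun t _ => e1 t), intervalIntegral.integral_finsetSum]
    · apply Finset.sum_congr rfl
      intro k _
      rw [intervalIntegral.integral_const_mul]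
    · intro k _
      exact (continuous_const.mul (cP.mul (cpk k))).intervalIntegrable _ _
  have hQ0 : ∫ t in T..(T + T), P t * ph t ^ (0 : ℤ) = ∫ t in T..(T + T), P t := by
    apply intervalIntegral.integral_congr
    intro t _
    simp
  have hsplit : ∫ t in T..(T + T), P t * g t = f 0 * (∫ t in T..(T + T), P t) +
      ∑ k ∈ S.erase 0, f k * ∫ t in T..(T + T), P t * ph t ^ k := by
    rw [hQF, ← Finset.add_sum_erase S _ hS0, hQ0]
  set Q : ℂ := ∫ t in T..(T + T), P t with hQ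
  set E : ℂ := ∑ k ∈ S.erase 0, f k * ∫ t in T..(T + T), P t * ph t ^ k with hE
  have hEb : ‖E‖ ≤ (∑ k ∈ S.erase 0, ‖f k‖) * (CK * T ^ (9 / 10 : ℝ)) := by
    rw [hE, Finset.sum_mul]
    refine (norm_sum_le _ _).trans ?_
    apply Finset.sum_le_sum
    intro k hk
    rw [Finset.mem_erase] at hk
    rw [norm_mul]
    exact mul_le_mul_of_nonneg_left (htw k hk.1 fun h => hS2 (h ▸ hk.2)) (norm_nonneg _)
  have hsumf : ‖f 0‖ + ∑ k ∈ S.erase 0, ‖f k‖ = ∑ k ∈ S, ‖f k‖ :=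
    Finset.add_sum_erase S (fun k => ‖f k‖) hS0
  have hTS : T * (c4 * (a / w)) ≤ ‖(T : ℂ) * Ss‖ := by
    calc T * (c4 * (a / w)) ≤ T * Ss.re := mul_le_mul_of_nonneg_left hdl hTp.le
      _ = ((T : ℂ) * Ss).re := by rw [Complex.re_ofReal_mul]
      _ ≤ ‖(T : ℂ) * Ss‖ := Complex.re_le_norm _
  have htri : ‖f 0‖ * ‖(T : ℂ) * Ss‖ ≤ ‖∫ t in T..(T + T), P t * g t‖ +
      ‖f 0‖ * ‖Q - T * Ss‖ + ‖E‖ := by
    have h : f 0 * ((T : ℂ) * Ss) = (∫ t in T..(T + T), P t * g t) - f 0 * (Q - T * Ss) - E := by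
      rw [hsplit]
      ring
    calc ‖f 0‖ * ‖(T : ℂ) * Ss‖ = ‖f 0 * ((T : ℂ) * Ss)‖ := (norm_mul _ _).symm
      _ = ‖(∫ t in T..(T + T), P t * g t) - f 0 * (Q - T * Ss) - E‖ := by rw [h]
      _ ≤ ‖(∫ t in T..(T + T), P t * g t) - f 0 * (Q - T * Ss)‖ + ‖E‖ := norm_sub_le _ _
      _ ≤ ‖∫ t in T..(T + T), P t * g t‖ + ‖f 0 * (Q - T * Ss)‖ + ‖E‖ :=
          add_le_add_left (norm_sub_le _ _) _
      _ = _ := by rw [norm_mul]
  have hf0 : ‖f 0‖ * ‖Q - T * Ss‖ ≤ ‖f 0‖ * (C3 * T ^ (9 / 10 : ℝ)) :=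
    mul_le_mul_of_nonneg_left (htf.trans (mul_le_mul_of_nonneg_left hT9 hC3.le)) (norm_nonneg _)
  have hsimp : 2 * ((C1 * T * L * (1 / (a / w) ^ 3) / (2 * w ^ 2) +
        w ^ 2 / 2 * (C2 * T * (a / w))) * (1 / w ^ 4)) = (C1 + C2) * T * a / w ^ 3 := by
    rw [← ha4]
    field_simp
  rw [hsimp] at hup
  have hmain : ‖f 0‖ * (T * (c4 * (a / w))) ≤ 2 * (∫ t in T..(T + T), |Z t| * ‖g t‖) +
      (C1 + C2) * T * a / w ^ 3 + ‖f 0‖ * (C3 * T ^ (9 / 10 : ℝ)) +
        (∑ k ∈ S.erase 0, ‖f k‖) * (CK * T ^ (9 / 10 : ℝ)) := by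
    have h12 := mul_le_mul_of_nonneg_left hTS (norm_nonneg (f 0))
    linarith
  have hT9p : 0 < T ^ (9 / 10 : ℝ) := Real.rpow_pos_of_pos hTp _
  have hse : 0 ≤ ∑ k ∈ S.erase 0, ‖f k‖ := Finset.sum_nonneg fun _ _ => norm_nonneg _
  have herr : ‖f 0‖ * (C3 * T ^ (9 / 10 : ℝ)) +
        (∑ k ∈ S.erase 0, ‖f k‖) * (CK * T ^ (9 / 10 : ℝ)) ≤
      (C3 + CK) * (∑ k ∈ S, ‖f k‖) * T ^ (9 / 10 : ℝ) := by
    rw [← hsumf]
    have h13 : 0 ≤ ‖f 0‖ * (CK * T ^ (9 / 10 : ℝ)) := by positivity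
    have h14 : 0 ≤ (∑ k ∈ S.erase 0, ‖f k‖) * (C3 * T ^ (9 / 10 : ℝ)) := by positivity
    linarith
  have hI : ∫ t in T..(2 * T), |Z t| * ‖∑ k ∈ S, f k * ph t ^ k‖ =
      ∫ t in T..(T + T), |Z t| * ‖g t‖ := by
    rw [two_mul]
  rw [hI]
  have hl : (c4 * ‖f 0‖ - (C1 + C2) / w ^ 2) * (T * a / w) =
      ‖f 0‖ * (T * (c4 * (a / w))) - (C1 + C2) * T * a / w ^ 3 := by
    field_simp
  rw [hl]
  linarith

end HZP
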