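import Pool.Agent.Work.MP_c51bc2_nt_pb.Interface

set_option autoImplicit false

open Finset Complex MeasureTheory HZS

namespace HZP

theorem LOE_meas (hTHX : Stmt_THX) (hIND : Stmt_IND) (α β : ℝ) :
    Measurable fun t => ind α β (th t) := by
  have hc : Continuous th := by
    rw [continuous_iff_continuousAt]
    exact fun t => (hTHX.2 t).continuousAt
  exact (hIND α β).1.comp hc.measurable

theorem LOE_int (hTHX : Stmt_THX) (hIND : Stmt_IND) {g : ℝ → ℝ} (hg : Continuous g)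
    (α β a b : ℝ) : IntervalIntegrable (fun t => g t * ind α β (th t)) volume a b := by
  have h1 : IntervalIntegrable (fun t => |g t|) volume a b := hg.abs.intervalIntegrable a b
  refine h1.mono_fun' ?_ ?_
  · exact (hg.measurable.mul (LOE_meas hTHX hIND α β)).aestronglyMeasurable
  · filter_upwards with t
    rw [Real.norm_eq_abs, abs_mul]
    obtain ⟨h2, h3⟩ := (hIND α β).2.1 (th t)
    rw [abs_of_nonneg h2]
    exact mul_le_of_le_one_right (abs_nonneg _) h3

theorem stmt_LOE (hLBW : Stmt_LBW) (hKRN : Stmt_KRN) (hUPZ : Stmt_UPZ) (hTHX : Stmt_THX)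
    (hIND : Stmt_IND) (hPHS : Stmt_PHS) (hZC : Stmt_ZC) : Stmt_LOE := by
  intro η h0 hπ
  obtain ⟨c4, Cs, w0, hc4, hCs, hw0, lbw⟩ := hLBW
  obtain ⟨ρ, hρ0, hρ1, krn⟩ := hKRN η h0 hπ
  obtain ⟨Cu, Tu, hCu, hTu, upz⟩ := hUPZ
  set κ : ℝ := max w0 (Real.sqrt (4 * Cs / c4)) with hκ
  have hκ0 : 0 < κ := lt_of_lt_of_le (by linarith) (le_max_left _ _)
  have hκ2 : 4 * Cs / c4 ≤ κ ^ 2 := by
    have h1 : Real.sqrt (4 * Cs / c4) ≤ κ := le_max_right _ _
    calc 4 * Cs / c4 = Real.sqrt (4 * Cs / c4) ^ 2 := (Real.sq_sqrt (by positivity)).symm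
      _ ≤ κ ^ 2 := pow_le_pow_left₀ (Real.sqrt_nonneg _) h1 2
  set c' : ℝ := c4 / (4 * κ) with hc'
  have hc'0 : 0 < c' := by positivity
  -- the choice of `n`
  have hlim : Filter.Tendsto (fun n : ℕ => (n : ℝ) ^ 3 * ρ ^ n) Filter.atTop (nhds 0) :=
    tendsto_pow_const_mul_const_pow_of_lt_one 3 hρ0.le hρ1
  have hn' : ∀ᶠ n : ℕ in Filter.atTop, (n : ℝ) ^ 3 * ρ ^ n < c' / (16 * Cu) :=
    hlim.eventually (gt_mem_nhds (by positivity))
  obtain ⟨n, hn1, hn2⟩ := (hn'.and (Filter.eventually_ge_atTop 2)).exists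
  have hnR : (2 : ℝ) ≤ n := by exact_mod_cast hn2
  have hn0 : (0 : ℝ) < n := by linarith
  set w : ℝ := κ * n with hw
  have hw1 : w0 ≤ w := by
    calc w0 ≤ κ := le_max_left _ _
      _ ≤ κ * n := le_mul_of_one_le_right hκ0.le (by linarith)
  have hwp : 0 < w := by positivity
  obtain ⟨C, T1, hC, hT1, lb⟩ := lbw w hw1
  -- the size of `T`
  have hev : ∀ᶠ T : ℝ in Filter.atTop, (T1 ≤ T ∧ Tu ≤ T ∧ 2 ≤ T) ∧ 1 ≤ Real.log T ∧
      8 * C * n ^ 3 / c' ≤ T ^ (1 / 10 : ℝ) :=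
    ((Filter.eventually_ge_atTop T1).and ((Filter.eventually_ge_atTop Tu).and
      (Filter.eventually_ge_atTop 2))).and ((Real.tendsto_log_atTop.eventually_ge_atTop 1).and
        ((tendsto_rpow_atTop (by norm_num)).eventually_ge_atTop _))
  obtain ⟨T0, hT0⟩ := Filter.eventually_atTop.1 hev
  refine ⟨c' / (8 * n ^ 3), max T0 2, by positivity,
    lt_of_lt_of_le one_lt_two (le_max_right _ _), ?_⟩
  intro T φ hT
  obtain ⟨⟨g1, g2, g3⟩, g4, g5⟩ := hT0 T (le_trans (le_max_left _ _) hT)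
  have hTp : 0 < T := by linarith
  have hTT : T ≤ 2 * T := by linarith
  obtain ⟨S, f, hS2, hS0, hS, hf0, hfs, hoff⟩ := krn n hn2 φ
  have cZ : Continuous Z := hZC
  obtain ⟨cph, -, nph, -⟩ := id hPHS
  have phne : ∀ t, ph t ≠ 0 := fun t h => by
    have := nph t
    rw [h, norm_zero] at this
    norm_num at this
  have cg : Continuous fun t => ∑ k ∈ S, f k * ph t ^ k := by
    apply continuous_finsetSum
    intro k _
    exact continuous_const.mul (cph.zpow₀ k fun t => Or.inl (phne t))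
  set J := ∫ t in T..(2 * T), |Z t| * ind (φ - η / 2) (φ + η / 2) (th t) with hJ
  set a := Real.log T ^ (1 / 4 : ℝ) with ha
  have ha1 : 1 ≤ a := Real.one_le_rpow g4 (by norm_num)
  have hU := upz T g2
  rw [← ha] at hU
  have hL := lb T S f g1 hS2 hS0 hS
  rw [← ha] at hL
  -- the weight on and off the arc
  have hF : ∀ t, ‖∑ k ∈ S, f k * ph t ^ k‖ ≤
      2 * ind (φ - η / 2) (φ + η / 2) (th t) + 2 * ρ ^ n := by
    intro t
    have hρn : 0 < ρ ^ n := pow_pos hρ0 n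
    by_cases h : InA (φ - η / 2) (φ + η / 2) (th t)
    · have e : ind (φ - η / 2) (φ + η / 2) (th t) = 1 := by
        unfold ind
        rw [if_pos h]
      rw [e]
      have := hS (ph t) (nph t)
      linarith
    · have e : ind (φ - η / 2) (φ + η / 2) (th t) = 0 := by
        unfold ind
        rw [if_neg h]
      rw [e]
      have h2 := hoff (th t) h
      rw [hTHX.1 t] at h2
      linarith
  have hI : ∫ t in T..(2 * T), |Z t| * ‖∑ k ∈ S, f k * ph t ^ k‖ ≤
      2 * J + 2 * ρ ^ n * ∫ t in T..(2 * T), |Z t| := by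
    have i1 : IntervalIntegrable (fun t => 2 * (|Z t| * ind (φ - η / 2) (φ + η / 2) (th t)))
        volume T (2 * T) := (LOE_int hTHX hIND cZ.abs _ _ _ _).const_mul 2
    have i2 : IntervalIntegrable (fun t => 2 * ρ ^ n * |Z t|) volume T (2 * T) :=
      (cZ.abs.intervalIntegrable _ _).const_mul _
    calc ∫ t in T..(2 * T), |Z t| * ‖∑ k ∈ S, f k * ph t ^ k‖
        ≤ ∫ t in T..(2 * T), (2 * (|Z t| * ind (φ - η / 2) (φ + η / 2) (th t)) +
            2 * ρ ^ n * |Z t|) := by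
          apply intervalIntegral.integral_mono_on hTT
          · exact (cZ.abs.mul cg.norm).intervalIntegrable _ _
          · exact i1.add i2
          · intro t _
            have := mul_le_mul_of_nonneg_left (hF t) (abs_nonneg (Z t))
            linarith
      _ = _ := by
          rw [intervalIntegral.integral_add i1 i2, intervalIntegral.integral_const_mul,
            intervalIntegral.integral_const_mul]
  -- the left side of LBW
  have hleft : c' / n ^ 3 * (T * a) ≤ (c4 * ‖f 0‖ - Cs / w ^ 2) * (T * a / w) := by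
    have h1 : Cs / w ^ 2 ≤ c4 / (4 * n ^ 2) := by
      rw [hw, mul_pow, div_le_div_iff₀ (by positivity) (by positivity)]
      have h2 : 4 * Cs ≤ c4 * κ ^ 2 := by
        have := (div_le_iff₀ hc4).1 hκ2
        linarith
      calc Cs * (4 * (n : ℝ) ^ 2) = 4 * Cs * n ^ 2 := by ring
        _ ≤ c4 * κ ^ 2 * n ^ 2 := mul_le_mul_of_nonneg_right h2 (by positivity)
        _ = _ := by ring
    have h2 : c4 / (2 * n ^ 2) ≤ c4 * ‖f 0‖ := by
      calc c4 / (2 * (n : ℝ) ^ 2) = c4 * (1 / (2 * n ^ 2)) := by ring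
        _ ≤ c4 * ‖f 0‖ := mul_le_mul_of_nonneg_left hf0 hc4.le
    have h3 : c4 / (4 * n ^ 2) ≤ c4 * ‖f 0‖ - Cs / w ^ 2 := by
      have h4 : c4 / (2 * (n : ℝ) ^ 2) = c4 / (4 * n ^ 2) + c4 / (4 * n ^ 2) := by
        field_simp
        norm_num
      linarith
    calc c' / (n : ℝ) ^ 3 * (T * a) = c4 / (4 * n ^ 2) * (T * a / w) := by
          rw [hc', hw]
          field_simp
      _ ≤ _ := mul_le_mul_of_nonneg_right h3 (by positivity)
  have hρn : 0 < ρ ^ n := pow_pos hρ0 n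
  have hmain : c' / n ^ 3 * (T * a) ≤ 4 * J + 4 * ρ ^ n * (Cu * T * a) +
      2 * C * T ^ (9 / 10 : ℝ) := by
    have hT9 : 0 < T ^ (9 / 10 : ℝ) := Real.rpow_pos_of_pos hTp _
    have h1 : C * (∑ k ∈ S, ‖f k‖) * T ^ (9 / 10 : ℝ) ≤ 2 * C * T ^ (9 / 10 : ℝ) := by
      have := mul_le_mul_of_nonneg_left hfs hC.le
      have := mul_le_mul_of_nonneg_right this hT9.le
      linarith
    have h2 : 2 * ρ ^ n * ∫ t in T..(2 * T), |Z t| ≤ 2 * ρ ^ n * (Cu * T * a) :=
      mul_le_mul_of_nonneg_left hU (by positivity)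
    linarith
  have hb1 : 4 * ρ ^ n * (Cu * T * a) ≤ c' / (4 * n ^ 3) * (T * a) := by
    have h1 : (n : ℝ) ^ 3 * ρ ^ n * (16 * Cu) ≤ c' := by
      have := (lt_div_iff₀ (by positivity)).1 hn1
      exact this.le
    have h2 : 4 * ρ ^ n * Cu ≤ c' / (4 * n ^ 3) := by
      rw [le_div_iff₀ (by positivity)]
      linarith
    have h3 := mul_le_mul_of_nonneg_right h2 (show 0 ≤ T * a by positivity)
    linarith
  have hb2 : 2 * C * T ^ (9 / 10 : ℝ) ≤ c' / (4 * n ^ 3) * (T * a) := by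
    have h1 : T = T ^ (9 / 10 : ℝ) * T ^ (1 / 10 : ℝ) := by
      rw [← Real.rpow_add hTp]
      norm_num
    have h2 : 8 * C * n ^ 3 ≤ c' * T ^ (1 / 10 : ℝ) := by
      have := (div_le_iff₀ hc'0).1 g5
      linarith
    have hT9 : 0 < T ^ (9 / 10 : ℝ) := Real.rpow_pos_of_pos hTp _
    have h3 : 2 * C ≤ c' / (4 * n ^ 3) * T ^ (1 / 10 : ℝ) := by
      rw [div_mul_eq_mul_div, le_div_iff₀ (by positivity)]
      linarith
    calc 2 * C * T ^ (9 / 10 : ℝ) ≤ c' / (4 * n ^ 3) * T ^ (1 / 10 : ℝ) * T ^ (9 / 10 : ℝ) :=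
          mul_le_mul_of_nonneg_right h3 hT9.le
      _ = c' / (4 * n ^ 3) * (T ^ (9 / 10 : ℝ) * T ^ (1 / 10 : ℝ)) := by ring
      _ = c' / (4 * n ^ 3) * T := by rw [← h1]
      _ ≤ c' / (4 * n ^ 3) * (T * a) := by
          apply mul_le_mul_of_nonneg_left _ (by positivity)
          exact le_mul_of_one_le_right hTp.le ha1
  have e1 : c' / (n : ℝ) ^ 3 * (T * a) = 4 * (c' / (4 * n ^ 3) * (T * a)) := by
    field_simp
  have e2 : c' / (8 * (n : ℝ) ^ 3) * T * a = 1 / 2 * (c' / (4 * n ^ 3) * (T * a)) := by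
    field_simp
    norm_num
  rw [e2]
  linarith

end HZP
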