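import Pool.Agent.Work.MP_c51bc2_nt_pb.Interface

set_option autoImplicit false

open Finset Complex MeasureTheory HZS

namespace HZP

namespace SGNx

theorem harm (c : ℤ → ℂ) (h0 : ‖c 0‖ ≤ 1) (hc : ∀ k : ℤ, k ≠ 0 → ‖c k‖ ≤ 1 / |(k : ℝ)|) (n : ℕ) :
    ∑ k ∈ Finset.Icc (-((n + 1 : ℕ) : ℤ)) ((n + 1 : ℕ) : ℤ), ‖c k‖ ≤ 3 + 2 * Real.log ((n + 1 : ℕ) : ℝ) := by
  induction n with
  | zero =>
    have e : Finset.Icc (-((0 + 1 : ℕ) : ℤ)) ((0 + 1 : ℕ) : ℤ) = {-1, 0, 1} := by decide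
    rw [e, Finset.sum_insert (by decide), Finset.sum_insert (by decide), Finset.sum_singleton]
    have a1 := hc 1 (by norm_num)
    have a2 := hc (-1) (by norm_num)
    norm_num at a1 a2 ⊢
    linarith
  | succ n ih =>
    have e : Finset.Icc (-((n + 1 + 1 : ℕ) : ℤ)) ((n + 1 + 1 : ℕ) : ℤ) =
        insert ((n + 1 + 1 : ℕ) : ℤ) (insert (-((n + 1 + 1 : ℕ) : ℤ))
          (Finset.Icc (-((n + 1 : ℕ) : ℤ)) ((n + 1 : ℕ) : ℤ))) := by
      ext i
      simp only [Finset.mem_Icc, Finset.mem_insert]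
      push_cast
      omega
    rw [e, Finset.sum_insert (by simp only [Finset.mem_Icc, Finset.mem_insert]; push_cast; omega),
      Finset.sum_insert (by simp only [Finset.mem_Icc]; push_cast; omega)]
    have a1 := hc ((n + 1 + 1 : ℕ) : ℤ) (by push_cast; omega)
    have a2 := hc (-((n + 1 + 1 : ℕ) : ℤ)) (by push_cast; omega)
    have hn : (0 : ℝ) < ((n + 1 : ℕ) : ℝ) := by positivity
    have e1 : (((n + 1 + 1 : ℕ) : ℤ) : ℝ) = ((n + 1 : ℕ) : ℝ) + 1 := by push_cast; ring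
    have e2 : ((-((n + 1 + 1 : ℕ) : ℤ) : ℤ) : ℝ) = -(((n + 1 : ℕ) : ℝ) + 1) := by push_cast; ring
    have e3 : ((n + 1 + 1 : ℕ) : ℝ) = ((n + 1 : ℕ) : ℝ) + 1 := by push_cast; ring
    rw [e1] at a1
    rw [e2, abs_neg] at a2
    rw [e3]
    set N : ℝ := ((n + 1 : ℕ) : ℝ) with hN
    rw [abs_of_pos (by linarith)] at a1 a2
    have a3 := Real.one_sub_inv_le_log_of_pos (show 0 < (N + 1) / N by positivity)
    rw [Real.log_div (by linarith) hn.ne', inv_div] at a3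
    have a4 : 1 - N / (N + 1) = 1 / (N + 1) := by field_simp; ring
    linarith

theorem pick (c : ℤ → ℂ) (K : ℕ) (hK : 1 ≤ K) (T : ℂ) :
    ∑ k ∈ Finset.Icc (-(K : ℤ)) (K : ℤ), c k * (if k = 1 ∨ k = -1 then T else 0) = (c 1 + c (-1)) * T := by
  have e : ∀ k : ℤ, c k * (if k = 1 ∨ k = -1 then T else 0) =
      (if k = 1 then c k * T else 0) + (if k = -1 then c k * T else 0) := by
    intro k
    by_cases h1 : k = 1
    · subst h1; simp
    · by_cases h2 : k = -1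
      · subst h2; simp
      · simp [h1, h2]
  simp only [e]
  rw [Finset.sum_add_distrib, Finset.sum_ite_eq', Finset.sum_ite_eq', if_pos, if_pos, add_mul]
  · rw [Finset.mem_Icc]; constructor <;> omega
  · rw [Finset.mem_Icc]; constructor <;> omega

end SGNx

theorem stmt_SGN (hTHX : Stmt_THX) (hIND : Stmt_IND) (hFOU : Stmt_FOU) (hEQD : Stmt_EQD)
    (hZEK : Stmt_ZEK) (hZSQ : HZU.Stmt_ZSQ) (hZC : HZS.Stmt_ZC) : Stmt_SGN := by
  obtain ⟨C1, T1, hC1, hT1, h1⟩ := hEQD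
  obtain ⟨C2, T2, hC2, hT2, h2⟩ := hZEK
  obtain ⟨C3, T3, hC3, hT3, h3⟩ := hZSQ
  have hthc : Continuous th := continuous_iff_continuousAt.2 fun t => (hTHX.2 t).continuousAt
  have hZ : Continuous Z := hZC
  refine ⟨5 * C2 + C3 / 2 + 2 * C1, max (max T1 T2) (max T3 (max 4 (Real.exp 1))), by positivity,
    lt_of_lt_of_le hT1 ((le_max_left _ _).trans (le_max_left _ _)), ?_⟩
  intro T α β hT hαβ hβ
  have hTa : T1 ≤ T := ((le_max_left _ _).trans (le_max_left _ _)).trans hT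
  have hTb : T2 ≤ T := ((le_max_right _ _).trans (le_max_left _ _)).trans hT
  have hTc : T3 ≤ T := ((le_max_left _ _).trans (le_max_right _ _)).trans hT
  have hTd : 4 ≤ T := ((le_max_left _ _).trans ((le_max_right _ _).trans (le_max_right _ _))).trans hT
  have hTe : Real.exp 1 ≤ T :=
    ((le_max_right _ _).trans ((le_max_right _ _).trans (le_max_right _ _))).trans hT
  have hT0 : 0 < T := by linarith
  have hlog : 1 ≤ Real.log T := (Real.le_log_iff_exp_le hT0).2 hTe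
  have hTT : T ≤ 2 * T := by linarith
  obtain ⟨f1, f2, f3, f4⟩ := hFOU α β hαβ hβ
  obtain ⟨K, hK1, hKs, hKT⟩ : ∃ K : ℕ, 1 ≤ K ∧ Real.sqrt T ≤ K ∧ (K : ℝ) ≤ T := by
    have s1 : 0 ≤ Real.sqrt T := Real.sqrt_nonneg T
    have s2 : Real.sqrt T * Real.sqrt T = T := Real.mul_self_sqrt hT0.le
    have s3 : 2 ≤ Real.sqrt T := by
      rw [show (2 : ℝ) = Real.sqrt 4 by rw [show (4 : ℝ) = 2 ^ 2 by norm_num, Real.sqrt_sq (by norm_num)]]
      exact Real.sqrt_le_sqrt hTd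
    refine ⟨⌈Real.sqrt T⌉₊, Nat.one_le_iff_ne_zero.2 (Nat.ceil_pos.2 (by linarith)).ne',
      Nat.le_ceil _, ?_⟩
    have := Nat.ceil_lt_add_one s1
    nlinarith
  have hK0 : (0 : ℝ) < K := by exact_mod_cast hK1
  have hq : (0 : ℝ) < T ^ (3 / 4 : ℝ) := Real.rpow_pos_of_pos hT0 _
  -- the sum of the coefficients
  have hsum : ∑ k ∈ Finset.Icc (-(K : ℤ)) (K : ℤ), ‖ck α β k‖ ≤ 3 + 2 * Real.log T := by
    obtain ⟨n, rfl⟩ : ∃ n, K = n + 1 := ⟨K - 1, by omega⟩
    refine (SGNx.harm (ck α β) f2 f1 n).trans ?_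
    have := Real.log_le_log hK0 hKT
    linarith
  have hexp : ∀ (k : ℤ) (t : ℝ), cexp (I * ((k * th t : ℝ) : ℂ)) = ph t ^ k := by
    intro k t
    rw [← hTHX.1 t, ← Complex.exp_int_mul]
    congr 1; push_cast; ring
  have hcsK : Continuous (sK α β K) := by
    unfold sK
    fun_prop
  have hcE : Continuous fun t => sK α β K (th t) := hcsK.comp hthc
  have hmI : Measurable fun t => (ind α β (th t) : ℂ) :=
    Complex.measurable_ofReal.comp ((hIND α β).1.comp hthc.measurable)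
  have hnI : ∀ x, ‖(ind α β x : ℂ)‖ ≤ 1 := by
    intro x
    rw [Complex.norm_real, Real.norm_of_nonneg ((hIND α β).2.1 x).1]
    exact ((hIND α β).2.1 x).2
  have hnS : ∀ x, ‖sK α β K x‖ ≤ ∑ k ∈ Finset.Icc (-(K : ℤ)) (K : ℤ), ‖ck α β k‖ := by
    intro x
    unfold sK
    refine (norm_sum_le _ _).trans (Finset.sum_le_sum fun k _ => ?_)
    rw [norm_mul, mul_comm I, Complex.norm_exp_ofReal_mul_I, mul_one]
  -- the main part
  have key1 : ‖(∫ t in T..(2 * T), (Z t : ℂ) * sK α β K (th t)) - (ck α β 1 + ck α β (-1)) * (T : ℂ)‖ ≤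
      (3 + 2 * Real.log T) * (C2 * T ^ (3 / 4 : ℝ)) := by
    have e0 : ∀ t : ℝ, (Z t : ℂ) * sK α β K (th t) =
        ∑ k ∈ Finset.Icc (-(K : ℤ)) (K : ℤ), ck α β k * ((Z t : ℂ) * ph t ^ k) := by
      intro t
      rw [sK, Finset.mul_sum]
      refine Finset.sum_congr rfl fun k _ => ?_
      rw [hexp]; ring
    simp only [e0]
    rw [intervalIntegral.integral_finset_sum]
    · simp only [intervalIntegral.integral_const_mul]
      rw [← SGNx.pick (ck α β) K hK1 (T : ℂ), ← Finset.sum_sub_distrib]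
      refine (norm_sum_le _ _).trans ?_
      refine le_trans (Finset.sum_le_sum fun k _ => ?_)
        (le_of_eq_of_le (Finset.sum_mul (Finset.Icc (-(K : ℤ)) (K : ℤ)) (fun k => ‖ck α β k‖)
          (C2 * T ^ (3 / 4 : ℝ))).symm (mul_le_mul_of_nonneg_right hsum (by positivity)))
      rw [← mul_sub, norm_mul]
      exact mul_le_mul_of_nonneg_left (h2 T k hTb) (norm_nonneg _)
    · intro k _
      have e1 : (fun t => ck α β k * ((Z t : ℂ) * ph t ^ k)) =
          fun t => ck α β k * ((Z t : ℂ) * cexp (I * ((k * th t : ℝ) : ℂ))) := by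
        funext t; rw [hexp]
      rw [e1]
      apply Continuous.intervalIntegrable
      have : Continuous fun t => (Z t : ℂ) := Complex.continuous_ofReal.comp hZ
      fun_prop
  -- the rest
  have hmg : Measurable fun x : ℝ => ‖(ind α β x : ℂ) - sK α β K x‖ ^ 2 :=
    (((Complex.measurable_ofReal.comp (hIND α β).1).sub hcsK.measurable).norm).pow_const 2
  have hper : ∀ x, sK α β K (x + 2 * Real.pi) = sK α β K x := by
    intro x
    unfold sK
    refine Finset.sum_congr rfl fun k _ => ?_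
    congr 1
    rw [Complex.exp_eq_exp_iff_exists_int]
    exact ⟨k, by push_cast; ring⟩
  have hE := h1 T (fun x : ℝ => ‖(ind α β x : ℂ) - sK α β K x‖ ^ 2) hTa hmg (fun x => by positivity)
    ⟨(1 + ∑ k ∈ Finset.Icc (-(K : ℤ)) (K : ℤ), ‖ck α β k‖) ^ 2, fun x => by
      have := (norm_sub_le (ind α β x : ℂ) (sK α β K x)).trans (add_le_add (hnI x) (hnS x))
      gcongr⟩
    (fun x => by simp only [(hIND α β).2.2 x, hper x])
  have hE2 : ∫ t in T..(2 * T), ‖(ind α β (th t) : ℂ) - sK α β K (th t)‖ ^ 2 ≤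
      C1 * T * (4 / Real.sqrt T) := by
    refine hE.trans (mul_le_mul_of_nonneg_left ((f4 K hK1).trans ?_) (by positivity))
    exact div_le_div_of_nonneg_left (by norm_num) (Real.sqrt_pos.2 hT0) hKs
  have hMbd : ∀ t, ‖(ind α β (th t) : ℂ) - sK α β K (th t)‖ ≤
      1 + ∑ k ∈ Finset.Icc (-(K : ℤ)) (K : ℤ), ‖ck α β k‖ := fun t =>
    (norm_sub_le _ _).trans (add_le_add (hnI _) (hnS _))
  have hmD : Measurable fun t => (ind α β (th t) : ℂ) - sK α β K (th t) := hmI.sub hcE.measurable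
  have iZ2 : IntervalIntegrable (fun t => |Z t| ^ 2) volume T (2 * T) :=
    (hZ.abs.pow 2).intervalIntegrable _ _
  have iD2 : IntervalIntegrable (fun t => ‖(ind α β (th t) : ℂ) - sK α β K (th t)‖ ^ 2) volume T
      (2 * T) := by
    rw [intervalIntegrable_iff]
    refine Measure.integrableOn_of_bounded
      (M := (1 + ∑ k ∈ Finset.Icc (-(K : ℤ)) (K : ℤ), ‖ck α β k‖) ^ 2) (by simp [Set.uIoc]) ?_ ?_
    · exact (hmD.norm.pow_const 2).aestronglyMeasurable
    · refine Filter.Eventually.of_forall fun t => ?_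
      have h5 := hMbd t
      rw [Real.norm_of_nonneg (by positivity)]
      gcongr
  have iZI : IntervalIntegrable (fun t => (Z t : ℂ) * ((ind α β (th t) : ℂ) - sK α β K (th t))) volume T
      (2 * T) := by
    rw [intervalIntegrable_iff]
    have h4 : IntegrableOn (fun t => (Z t : ℂ)) (Set.uIoc T (2 * T)) volume :=
      intervalIntegrable_iff.1 ((Complex.continuous_ofReal.comp hZ).intervalIntegrable _ _)
    refine Integrable.mul_bdd (c := 1 + ∑ k ∈ Finset.Icc (-(K : ℤ)) (K : ℤ), ‖ck α β k‖) h4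
      hmD.aestronglyMeasurable ?_
    exact Filter.Eventually.of_forall fun t => hMbd t
  have key2 : ‖∫ t in T..(2 * T), (Z t : ℂ) * ((ind α β (th t) : ℂ) - sK α β K (th t))‖ ≤
      (C3 / 2 + 2 * C1) * T ^ (3 / 4 : ℝ) * Real.log T := by
    refine (intervalIntegral.norm_integral_le_integral_norm hTT).trans ?_
    have hμ : (0 : ℝ) < T ^ (-(1 / 4) : ℝ) := Real.rpow_pos_of_pos hT0 _
    have hμ' : (0 : ℝ) < T ^ (1 / 4 : ℝ) := Real.rpow_pos_of_pos hT0 _
    have hμμ : T ^ (-(1 / 4) : ℝ) * T ^ (1 / 4 : ℝ) = 1 := by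
      rw [← Real.rpow_add hT0]; norm_num
    have hle : ∫ t in T..(2 * T), ‖(Z t : ℂ) * ((ind α β (th t) : ℂ) - sK α β K (th t))‖ ≤
        ∫ t in T..(2 * T), (T ^ (-(1 / 4) : ℝ) / 2 * |Z t| ^ 2 +
          T ^ (1 / 4 : ℝ) / 2 * ‖(ind α β (th t) : ℂ) - sK α β K (th t)‖ ^ 2) := by
      refine intervalIntegral.integral_mono_on hTT iZI.norm
        ((iZ2.const_mul _).add (iD2.const_mul _)) fun t _ => ?_
      rw [norm_mul, Complex.norm_real, Real.norm_eq_abs]
      set a := |Z t|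
      set b := ‖(ind α β (th t) : ℂ) - sK α β K (th t)‖
      have h5 : 0 ≤ T ^ (-(1 / 4) : ℝ) * (a - T ^ (1 / 4 : ℝ) * b) ^ 2 := by positivity
      have h6 : T ^ (-(1 / 4) : ℝ) * (a - T ^ (1 / 4 : ℝ) * b) ^ 2 =
          T ^ (-(1 / 4) : ℝ) * a ^ 2 - 2 * (T ^ (-(1 / 4) : ℝ) * T ^ (1 / 4 : ℝ)) * (a * b) +
            (T ^ (-(1 / 4) : ℝ) * T ^ (1 / 4 : ℝ)) * T ^ (1 / 4 : ℝ) * b ^ 2 := by ring
      rw [h6, hμμ] at h5
      linarith
    rw [intervalIntegral.integral_add (iZ2.const_mul _) (iD2.const_mul _),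
      intervalIntegral.integral_const_mul, intervalIntegral.integral_const_mul] at hle
    refine hle.trans ?_
    have b1 := mul_le_mul_of_nonneg_left (h3 T hTc) (show 0 ≤ T ^ (-(1 / 4) : ℝ) / 2 by positivity)
    have b2 := mul_le_mul_of_nonneg_left hE2 (show 0 ≤ T ^ (1 / 4 : ℝ) / 2 by positivity)
    have b3 : T ^ (-(1 / 4) : ℝ) * T = T ^ (3 / 4 : ℝ) := by
      nth_rw 2 [← Real.rpow_one T]
      rw [← Real.rpow_add hT0]; norm_num
    have b4 : T ^ (1 / 4 : ℝ) * (T * (1 / Real.sqrt T)) = T ^ (3 / 4 : ℝ) := by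
      rw [Real.sqrt_eq_rpow, one_div (T ^ (1 / 2 : ℝ)), ← Real.rpow_neg hT0.le]
      nth_rw 2 [← Real.rpow_one T]
      rw [← Real.rpow_add hT0, ← Real.rpow_add hT0]; norm_num
    have b5 : T ^ (-(1 / 4) : ℝ) / 2 * (C3 * T * Real.log T) =
        C3 / 2 * T ^ (3 / 4 : ℝ) * Real.log T := by
      rw [← b3]; ring
    have b6 : T ^ (1 / 4 : ℝ) / 2 * (C1 * T * (4 / Real.sqrt T)) = 2 * C1 * T ^ (3 / 4 : ℝ) := by
      rw [← b4]; ring
    have b7 : 2 * C1 * T ^ (3 / 4 : ℝ) ≤ 2 * C1 * T ^ (3 / 4 : ℝ) * Real.log T :=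
      le_mul_of_one_le_right (by positivity) hlog
    rw [b5] at b1
    rw [b6] at b2
    calc _ ≤ C3 / 2 * T ^ (3 / 4 : ℝ) * Real.log T + 2 * C1 * T ^ (3 / 4 : ℝ) := add_le_add b1 b2
      _ ≤ C3 / 2 * T ^ (3 / 4 : ℝ) * Real.log T + 2 * C1 * T ^ (3 / 4 : ℝ) * Real.log T := by linarith
      _ = _ := by ring
  -- the sum
  have iZS : IntervalIntegrable (fun t => (Z t : ℂ) * sK α β K (th t)) volume T (2 * T) :=
    ((Complex.continuous_ofReal.comp hZ).mul hcE).intervalIntegrable _ _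
  have e1 : ((∫ t in T..(2 * T), Z t * ind α β (th t) : ℝ) : ℂ) =
      (∫ t in T..(2 * T), (Z t : ℂ) * sK α β K (th t)) +
        ∫ t in T..(2 * T), (Z t : ℂ) * ((ind α β (th t) : ℂ) - sK α β K (th t)) := by
    rw [← intervalIntegral.integral_add iZS iZI, ← intervalIntegral.integral_ofReal]
    refine intervalIntegral.integral_congr fun t _ => ?_
    push_cast
    ring
  have e2 : (((∫ t in T..(2 * T), Z t * ind α β (th t)) -
      (Real.sin β - Real.sin α) / Real.pi * T : ℝ) : ℂ) =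
      ((∫ t in T..(2 * T), (Z t : ℂ) * sK α β K (th t)) - (ck α β 1 + ck α β (-1)) * (T : ℂ)) +
        ∫ t in T..(2 * T), (Z t : ℂ) * ((ind α β (th t) : ℂ) - sK α β K (th t)) := by
    rw [Complex.ofReal_sub, e1, f3]
    push_cast
    ring
  rw [← Real.norm_eq_abs, ← Complex.norm_real, e2]
  refine (norm_add_le _ _).trans ((add_le_add key1 key2).trans ?_)
  have b8 : (3 + 2 * Real.log T) * (C2 * T ^ (3 / 4 : ℝ)) ≤ 5 * Real.log T * (C2 * T ^ (3 / 4 : ℝ)) :=
    mul_le_mul_of_nonneg_right (by linarith) (by positivity)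
  calc _ ≤ 5 * Real.log T * (C2 * T ^ (3 / 4 : ℝ)) +
      (C3 / 2 + 2 * C1) * T ^ (3 / 4 : ℝ) * Real.log T := add_le_add b8 le_rfl
    _ = _ := by ring

end HZP
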