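import Pool.Agent.Work.MP_c51bc2_nt_pb.B_ZEK

/-! # TFK: the twisted first moment of `ζ e^{ikθ}`, `k ≠ 0, 2` -/

set_option autoImplicit false

open Finset Complex MeasureTheory HZS HZU

namespace HZP

noncomputable section

theorem TFK_pair {d e : ℕ} (hd : 1 ≤ d) (he : 1 ≤ e) (t : ℝ) :
    mo d t * (starRingEnd ℂ) (mo e t) =
      ((1 / Real.sqrt d * (1 / Real.sqrt e) : ℝ) : ℂ) *
        cexp (-(I * ((t * (Real.log d - Real.log e) : ℝ) : ℂ))) := by
  rw [TF_mo hd, TF_mo he]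
  simp only [map_mul, Complex.conj_ofReal, ← Complex.exp_conj, Complex.conj_I]
  have e1 : -(I * ((t * (Real.log d - Real.log e) : ℝ) : ℂ)) =
      ((-Real.log d : ℝ) : ℂ) * I * t + ((-Real.log e : ℝ) : ℂ) * -I * t := by
    push_cast; ring
  rw [e1, Complex.exp_add]
  push_cast
  ring

/-- expanding a product of two Dirichlet polynomials against a weight -/
theorem TFK_exp (W : ℝ → ℂ) (hW : Continuous W) (b c : ℕ → ℂ) (hb : ∀ n, ‖b n‖ ≤ 1)
    (hc : ∀ n, ‖c n‖ ≤ 1) (Y : ℕ) (T A : ℝ) (hY : 1 ≤ Y ∨ Y = 0)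
    (h : ∀ y : ℝ, -(Real.log Y) ≤ y →
      ‖∫ t in T..(2 * T), W t * cexp (-(I * ((t * y : ℝ) : ℂ)))‖ ≤ A) (hA : 0 ≤ A) :
    ‖∫ t in T..(2 * T), W t * (D b Y t * (starRingEnd ℂ) (D c Y t))‖ ≤ (Y : ℝ) * (Y * A) := by
  have e1 : ∫ t in T..(2 * T), W t * (D b Y t * (starRingEnd ℂ) (D c Y t)) =
      ∑ d ∈ Icc 1 Y, ∑ e ∈ Icc 1 Y, (b d * (starRingEnd ℂ) (c e) *
        ((1 / Real.sqrt d * (1 / Real.sqrt e) : ℝ) : ℂ)) *
          ∫ t in T..(2 * T), W t * cexp (-(I * ((t * (Real.log d - Real.log e) : ℝ) : ℂ))) := by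
    have e2 : ∀ t : ℝ, W t * (D b Y t * (starRingEnd ℂ) (D c Y t)) =
        ∑ d ∈ Icc 1 Y, ∑ e ∈ Icc 1 Y, (b d * (starRingEnd ℂ) (c e) *
          ((1 / Real.sqrt d * (1 / Real.sqrt e) : ℝ) : ℂ)) *
            (W t * cexp (-(I * ((t * (Real.log d - Real.log e) : ℝ) : ℂ)))) := by
      intro t
      simp only [D, map_sum, map_mul]
      rw [Finset.sum_mul_sum, Finset.mul_sum]
      apply Finset.sum_congr rfl
      intro d hd
      rw [Finset.mul_sum]
      apply Finset.sum_congr rfl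
      intro e he
      have h1 := TFK_pair (Finset.mem_Icc.1 hd).1 (Finset.mem_Icc.1 he).1 t
      calc W t * (b d * mo d t * ((starRingEnd ℂ) (c e) * (starRingEnd ℂ) (mo e t))) =
          W t * (b d * (starRingEnd ℂ) (c e)) * (mo d t * (starRingEnd ℂ) (mo e t)) := by ring
        _ = _ := by rw [h1]; ring
    simp_rw [e2]
    have hi : ∀ d ∈ Icc 1 Y, ∀ e ∈ Icc 1 Y, Continuous fun t : ℝ =>
        (b d * (starRingEnd ℂ) (c e) * ((1 / Real.sqrt d * (1 / Real.sqrt e) : ℝ) : ℂ)) *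
            (W t * cexp (-(I * ((t * (Real.log d - Real.log e) : ℝ) : ℂ)))) := by
      intro d _ e _
      exact continuous_const.mul (hW.mul (by fun_prop))
    rw [intervalIntegral.integral_finsetSum]
    · apply Finset.sum_congr rfl
      intro d hd
      rw [intervalIntegral.integral_finsetSum]
      · apply Finset.sum_congr rfl
        intro e _
        rw [intervalIntegral.integral_const_mul]
      · intro e he
        exact (hi d hd e he).intervalIntegrable _ _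
    · intro d hd
      exact (continuous_finsetSum _ (fun e he => hi d hd e he)).intervalIntegrable _ _
  rw [e1]
  have hin : ∀ d ∈ Icc 1 Y, ∀ e ∈ Icc 1 Y, ‖(b d * (starRingEnd ℂ) (c e) *
        ((1 / Real.sqrt d * (1 / Real.sqrt e) : ℝ) : ℂ)) *
          ∫ t in T..(2 * T), W t * cexp (-(I * ((t * (Real.log d - Real.log e) : ℝ) : ℂ)))‖ ≤
        A := by
    intro d hd e he
    rw [Finset.mem_Icc] at hd he
    have h1 : (1 : ℝ) ≤ Real.sqrt d := by rw [Real.one_le_sqrt]; exact_mod_cast hd.1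
    have h2 : (1 : ℝ) ≤ Real.sqrt e := by rw [Real.one_le_sqrt]; exact_mod_cast he.1
    have h3 : ‖((1 / Real.sqrt d * (1 / Real.sqrt e) : ℝ) : ℂ)‖ ≤ 1 := by
      rw [Complex.norm_real, Real.norm_of_nonneg (by positivity)]
      have ha : 1 / Real.sqrt d ≤ 1 := by rw [div_le_one (by linarith)]; exact h1
      have hb' : 1 / Real.sqrt e ≤ 1 := by rw [div_le_one (by linarith)]; exact h2
      exact mul_le_one₀ ha (by positivity) hb'
    have h4 : ‖b d * (starRingEnd ℂ) (c e)‖ ≤ 1 := by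
      rw [norm_mul, RCLike.norm_conj]
      exact mul_le_one₀ (hb d) (norm_nonneg _) (hc e)
    have h5 : 0 ≤ Real.log d := Real.log_nonneg (by exact_mod_cast hd.1)
    have h6 : Real.log e ≤ Real.log Y := by
      apply Real.log_le_log
      · exact_mod_cast he.1
      · exact_mod_cast he.2
    have h7 := h (Real.log d - Real.log e) (by linarith)
    rw [norm_mul, norm_mul]
    calc ‖b d * (starRingEnd ℂ) (c e)‖ * ‖((1 / Real.sqrt d * (1 / Real.sqrt e) : ℝ) : ℂ)‖ *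
        ‖∫ t in T..(2 * T), W t * cexp (-(I * ((t * (Real.log d - Real.log e) : ℝ) : ℂ)))‖ ≤
        1 * 1 * A := by gcongr
      _ = A := by ring
  calc _ ≤ ∑ d ∈ Icc 1 Y, ∑ e ∈ Icc 1 Y, A :=
        (norm_sum_le _ _).trans (Finset.sum_le_sum fun d hd =>
          (norm_sum_le _ _).trans (Finset.sum_le_sum fun e he => hin d hd e he))
    _ = _ := by simp

theorem stmt_TFK (hDTD : Stmt_DTD) (hZS : Stmt_ZS) (hRZ : Stmt_RZ) (hKMN : Stmt_KMN) :
    Stmt_TFK := by
  obtain ⟨C1, T1, hC1, hT1, h1⟩ := hKMN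
  obtain ⟨C3, T3, hC3, hT3, h3⟩ := zet_neg hDTD hZS
  obtain ⟨hphc, -, hphn, -⟩ := stmt_PHS
  refine ⟨C1 + C3, max T1 T3, by positivity, lt_of_lt_of_le hT1 (le_max_left _ _), ?_⟩
  intro T Y b c k hT hY hb hc hk0 hk2
  have hTa : T1 ≤ T := le_trans (le_max_left _ _) hT
  have hTc : T3 ≤ T := le_trans (le_max_right _ _) hT
  have hTg1 : 1 < T := lt_of_lt_of_le hT1 hTa
  have hT0 : 0 < T := by linarith
  have hTT : T ≤ 2 * T := by linarith
  have hLp : 0 < Real.log T := Real.log_pos hTg1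
  have hq : 0 < T ^ (9 / 10 : ℝ) := Real.rpow_pos_of_pos hT0 _
  have hlY : Real.log Y ≤ Real.log T / 4 := by
    rcases Nat.eq_zero_or_pos Y with h | h
    · rw [h]; simp; linarith
    · have h5 : Real.log Y ≤ Real.log (T ^ (1 / 20 : ℝ)) :=
        Real.log_le_log (by exact_mod_cast h) hY
      rw [Real.log_rpow hT0] at h5
      linarith
  have hYY : (Y : ℝ) * Y ≤ T ^ (1 / 10 : ℝ) := by
    calc (Y : ℝ) * Y ≤ T ^ (1 / 20 : ℝ) * T ^ (1 / 20 : ℝ) := by gcongr
      _ = T ^ (1 / 10 : ℝ) := by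
        rw [← Real.rpow_add hT0]
        congr 1
        norm_num
  have hY01 : 1 ≤ Y ∨ Y = 0 := by omega
  have fin : ∀ A : ℝ, 0 ≤ A → A ≤ (C1 + C3) * T ^ (3 / 4 : ℝ) →
      (Y : ℝ) * (Y * A) ≤ (C1 + C3) * T ^ (9 / 10 : ℝ) := by
    intro A hA hA'
    have h5 : T ^ (1 / 10 : ℝ) * T ^ (3 / 4 : ℝ) = T ^ (17 / 20 : ℝ) := by
      rw [← Real.rpow_add hT0]
      norm_num
    have h6 : T ^ (17 / 20 : ℝ) ≤ T ^ (9 / 10 : ℝ) :=
      Real.rpow_le_rpow_of_exponent_le hTg1.le (by norm_num)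
    calc (Y : ℝ) * (Y * A) = (Y * Y) * A := by ring
      _ ≤ T ^ (1 / 10 : ℝ) * ((C1 + C3) * T ^ (3 / 4 : ℝ)) :=
        mul_le_mul hYY hA' hA (Real.rpow_nonneg hT0.le _)
      _ = (C1 + C3) * (T ^ (1 / 10 : ℝ) * T ^ (3 / 4 : ℝ)) := by ring
      _ = (C1 + C3) * T ^ (17 / 20 : ℝ) := by rw [h5]
      _ ≤ _ := mul_le_mul_of_nonneg_left h6 (by positivity)
  have hsq : Real.sqrt T ≤ T ^ (3 / 4 : ℝ) := by
    rw [Real.sqrt_eq_rpow]
    exact Real.rpow_le_rpow_of_exponent_le hTg1.le (by norm_num)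
  have hb3 : C3 * Real.sqrt T ≤ (C1 + C3) * T ^ (3 / 4 : ℝ) := by
    have h5 : 0 < T ^ (3 / 4 : ℝ) := Real.rpow_pos_of_pos hT0 _
    have h6 : 0 ≤ Real.sqrt T := Real.sqrt_nonneg _
    nlinarith
  have hb1 : C1 * T ^ (3 / 4 : ℝ) ≤ (C1 + C3) * T ^ (3 / 4 : ℝ) := by
    have h5 : 0 < T ^ (3 / 4 : ℝ) := Real.rpow_pos_of_pos hT0 _
    nlinarith
  have hphm : ∀ m : ℕ, Continuous fun t => (ph t ^ m)⁻¹ := fun m =>
    (hphc.pow m).inv₀ (fun t => pow_ne_zero _ (ph_ne t))
  -- negative powers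
  have neg : ∀ (b c : ℕ → ℂ), (∀ n, ‖b n‖ ≤ 1) → (∀ n, ‖c n‖ ≤ 1) → ∀ m : ℕ, 1 ≤ m →
      ‖∫ t in T..(2 * T), (riemannZeta (1 / 2 + I * t) * (ph t ^ m)⁻¹) *
        (D b Y t * (starRingEnd ℂ) (D c Y t))‖ ≤ (C1 + C3) * T ^ (9 / 10 : ℝ) := by
    intro b c hb hc m hm
    refine (TFK_exp (fun t => riemannZeta (1 / 2 + I * t) * (ph t ^ m)⁻¹)
      (TF_zeta_cont.mul (hphm m)) b c hb hc Y T (C3 * Real.sqrt T) hY01 ?_ (by positivity)).trans
      (fin _ (by positivity) hb3)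
    intro y hy
    have h5 := h3 T y m hTc hm (by linarith)
    have e9 : (fun t : ℝ => riemannZeta (1 / 2 + I * t) * (ph t ^ m)⁻¹ *
        cexp (-(I * ((t * y : ℝ) : ℂ)))) = fun t : ℝ => riemannZeta (1 / 2 + I * t) *
          ((ph t ^ m)⁻¹ * cexp (-(I * ((t * y : ℝ) : ℂ)))) := by
      funext t
      ring
    rw [e9]
    exact h5
  rcases lt_or_ge k 0 with hk | hk
  · obtain ⟨m, hm⟩ : ∃ m : ℕ, (m : ℤ) = -k := ⟨(-k).toNat, by omega⟩
    have hm1 : 1 ≤ m := by omega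
    have e1 : ∫ t in T..(2 * T), riemannZeta (1 / 2 + I * t) * D b Y t *
        (starRingEnd ℂ) (D c Y t) * ph t ^ k =
        ∫ t in T..(2 * T), (riemannZeta (1 / 2 + I * t) * (ph t ^ m)⁻¹) *
        (D b Y t * (starRingEnd ℂ) (D c Y t)) := by
      apply intervalIntegral.integral_congr
      intro t _
      simp only
      have e5 : k = -(m : ℤ) := by omega
      rw [e5, zpow_neg, zpow_natCast]
      ring
    rw [e1]
    exact neg b c hb hc m hm1
  · rcases eq_or_ne k 1 with hk1 | hk1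
    · have e1 : ∫ t in T..(2 * T), riemannZeta (1 / 2 + I * t) * D b Y t *
          (starRingEnd ℂ) (D c Y t) * ph t ^ k =
          ∫ t in T..(2 * T), (Z t : ℂ) * (D b Y t * (starRingEnd ℂ) (D c Y t)) := by
        apply intervalIntegral.integral_congr
        intro t _
        simp only
        rw [hk1, zpow_one, KMN_Z hRZ]
        ring
      rw [e1]
      have hZc : Continuous fun t => (Z t : ℂ) := by
        have e2 : (fun t => (Z t : ℂ)) = fun t => ph t * riemannZeta (1 / 2 + I * t) := by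
          funext t
          exact KMN_Z hRZ t
        rw [e2]
        exact hphc.mul TF_zeta_cont
      refine (TFK_exp (fun t => (Z t : ℂ)) hZc b c hb hc Y T (C1 * T ^ (3 / 4 : ℝ)) hY01 ?_
        (by positivity)).trans (fin _ (by positivity) hb1)
      intro y _
      have h5 := h1 T (-y) hTa
      have e3 : ∀ t : ℝ, cexp (-(I * ((t * y : ℝ) : ℂ))) = cexp (I * ((t * -y : ℝ) : ℂ)) := by
        intro t
        congr 1
        push_cast
        ring
      simp_rw [e3]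
      exact h5
    · obtain ⟨m, hm⟩ : ∃ m : ℕ, (m : ℤ) = k - 2 := ⟨(k - 2).toNat, by omega⟩
      have hm1 : 1 ≤ m := by omega
      have e1 : ∫ t in T..(2 * T), riemannZeta (1 / 2 + I * t) * D b Y t *
          (starRingEnd ℂ) (D c Y t) * ph t ^ k =
          (starRingEnd ℂ) (∫ t in T..(2 * T), (riemannZeta (1 / 2 + I * t) * (ph t ^ m)⁻¹) *
            (D c Y t * (starRingEnd ℂ) (D b Y t))) := by
        rw [int_conj]
        apply intervalIntegral.integral_congr
        intro t _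
        simp only
        have hp := ph_ne t
        have e5 : k = 2 + (m : ℤ) := by omega
        have e6 : (starRingEnd ℂ) (riemannZeta (1 / 2 + I * t)) =
            riemannZeta (1 / 2 + I * t) * ph t ^ 2 := by
          have e7 : riemannZeta (1 / 2 + I * t) = (Z t : ℂ) * (ph t)⁻¹ := by
            rw [KMN_Z hRZ]
            field_simp
          rw [e7, map_mul, Complex.conj_ofReal, map_inv₀, ph_inv_conj, inv_inv]
          field_simp
        rw [map_mul, map_mul, map_mul, e6, map_inv₀, map_pow, ph_inv_conj, inv_pow, inv_inv,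
          Complex.conj_conj, e5, zpow_add₀ hp, zpow_natCast]
        have e8 : ph t ^ (2 : ℤ) = ph t ^ 2 := by norm_cast
        rw [e8]
        ring
      rw [e1, Complex.norm_conj]
      exact neg c b hc hb m hm1

end

end HZP
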