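import Pool.Agent.Work.MP_c51bc2_nt_pb.Interface
import Pool.Agent.Work.MP_c51bc2_nt.B_PHS

set_option autoImplicit false

open Finset Complex MeasureTheory HZS

namespace HZP

theorem stmt_THX : Stmt_THX := by
  obtain ⟨-, hc, h1, -⟩ := stmt_PHS
  have hint : ∀ t : ℝ, IntervalIntegrable dth volume 0 t := fun t => hc.intervalIntegrable 0 t
  refine ⟨fun t => ?_, fun t => ?_⟩
  · have h2 := PHS_formula t
    rw [h2]
    unfold th
    have h3 : ph 0 = cexp (I * (Complex.arg (ph 0) : ℂ)) := by
      have h4 := Complex.norm_mul_exp_arg_mul_I (ph 0)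
      rw [h1 0, Complex.ofReal_one, one_mul, mul_comm] at h4
      exact h4.symm
    conv_rhs => rw [h3]
    rw [← Complex.exp_add]
    congr 1
    push_cast
    ring
  · have h2 : HasDerivAt (fun t => ∫ s in (0 : ℝ)..t, dth s) (dth t) t :=
      intervalIntegral.integral_hasDerivAt_right (hint t) (hc.stronglyMeasurableAtFilter _ _)
        hc.continuousAt
    unfold th
    exact h2.const_add _

end HZP
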