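import Pool.Agent.Work.MP_c51bc2_nt_pb.Interface
import Pool.Agent.Work.MP_c51bc2_nt.B_MAIN

set_option autoImplicit false

open Finset Complex MeasureTheory HZS

namespace HZP

theorem stmt_UPZ (hPAR : HZS.Stmt_PARs) (hOFF : HZS.Stmt_OFF) (hGDM : HZS.Stmt_GDM)
    (hTWN : HZS.Stmt_TWN) (hMES : HZS.Stmt_MES) (hZC : HZS.Stmt_ZC) : Stmt_UPZ := by
  obtain ⟨W, L0, hW8, hL0, hpar⟩ := hPAR (1 / 20) (by norm_num) le_rfl
  obtain ⟨C1, T1, hC1, hT1, h1⟩ := hOFF (1 / 20) (by norm_num) le_rfl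
  obtain ⟨C2, T2, hC2, hT2, h2⟩ := hTWN (1 / 20) (by norm_num) le_rfl
  have hW0 : 0 < W := by linarith
  have w1 : 0 < W ^ (-(3 / 4) : ℝ) := Real.rpow_pos_of_pos hW0 _
  have w2 : 0 < W ^ (3 / 4 : ℝ) := Real.rpow_pos_of_pos hW0 _
  have w3 : 0 < W ^ (-(1 / 4) : ℝ) := Real.rpow_pos_of_pos hW0 _
  refine ⟨C1 * W ^ (-(3 / 4) : ℝ) + 2 * (C2 * W ^ (3 / 4 : ℝ) + C2 * W ^ (-(1 / 4) : ℝ)),
    max (max T1 T2) (max (Real.exp L0) (Real.exp (5 * W))), by positivity,
    lt_of_lt_of_le hT1 ((le_max_left _ _).trans (le_max_left _ _)), ?_⟩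
  intro T hT
  have hTa : T1 ≤ T := ((le_max_left _ _).trans (le_max_left _ _)).trans hT
  have hTb : T2 ≤ T := ((le_max_right _ _).trans (le_max_left _ _)).trans hT
  have hTc : Real.exp L0 ≤ T := ((le_max_left _ _).trans (le_max_right _ _)).trans hT
  have hTd : Real.exp (5 * W) ≤ T := ((le_max_right _ _).trans (le_max_right _ _)).trans hT
  have hT1' : 1 < T := lt_of_lt_of_le hT1 hTa
  have hT0' : 0 < T := by linarith
  have hlc : L0 ≤ Real.log T := (Real.le_log_iff_exp_le hT0').2 hTc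
  have hld : 5 * W ≤ Real.log T := (Real.le_log_iff_exp_le hT0').2 hTd
  have hlog : 0 < Real.log T := Real.log_pos hT1'
  have hWL : W ≤ Real.log T / 5 := by linarith
  obtain ⟨R, X, lam, hch, hsh, hxR, hsum⟩ := hpar (Real.log T) W hlc le_rfl hWL
  have hLC : IsLC (1 / 20) T W R X lam := ⟨hch, hsh, hxR, hW8, hWL, hsum⟩
  have hA : Adm (1 / 20) T T := by
    refine ⟨?_, le_rfl⟩
    calc T ^ (1 / 2 + 4 * (1 / 20) : ℝ) ≤ T ^ (1 : ℝ) :=
          Real.rpow_le_rpow_of_exponent_le hT1'.le (by norm_num)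
      _ = T := Real.rpow_one T
  have a1 := h1 T T W R X lam hTa hA hLC
  obtain ⟨a2, a3⟩ := h2 T T W R X lam hTb hA hLC
  obtain ⟨hm1, hm2, hm3⟩ := hMES X lam R
  have hG := hGDM (Real.log T) R X lam hch
  have hTH : T ≤ T + T := by linarith
  have cZ : Continuous fun t => |Z t| := (show Continuous Z from hZC).abs
  have cM : Continuous fun t => ‖MM X lam (range R) t‖ ^ 2 :=
    ((MAINx.cont_MM X lam (range R)).norm).pow 2
  have cN : Continuous fun t => ‖NN X lam (range R) t‖ ^ 2 :=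
    ((MAINx.cont_NN X lam (range R)).norm).pow 2
  have cA : Continuous fun t => |Z t| ^ 2 * ‖MM X lam (range R) t‖ ^ 2 := (cZ.pow 2).mul cM
  have iL : IntervalIntegrable (fun t => (1 - gd X lam R t) * |Z t|) volume T (T + T) := by
    rw [intervalIntegrable_iff_integrableOn_Ioc_of_le hTH]
    have h4 : IntegrableOn (fun t => |Z t|) (Set.Ioc T (T + T)) volume :=
      (intervalIntegrable_iff_integrableOn_Ioc_of_le hTH).1 (cZ.intervalIntegrable T (T + T))
    refine Integrable.bdd_mul (c := 1) h4 (measurable_const.sub hm1).aestronglyMeasurable ?_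
    refine Filter.Eventually.of_forall fun t => ?_
    rcases hm3 t with h | h <;> simp [h]
  have i3 : IntervalIntegrable (fun t => |Z t| ^ 2 * ‖MM X lam (range R) t‖ ^ 2) volume T
      (T + T) := cA.intervalIntegrable _ _
  have i4 : IntervalIntegrable (fun t => ‖NN X lam (range R) t‖ ^ 2) volume T (T + T) :=
    cN.intervalIntegrable _ _
  have i5 : IntervalIntegrable (fun t => 2 * (|Z t| ^ 2 * ‖MM X lam (range R) t‖ ^ 2 +
      ‖NN X lam (range R) t‖ ^ 2)) volume T (T + T) := (i3.add i4).const_mul 2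
  have hle : ∫ t in T..(T + T), |Z t| ≤ ∫ t in T..(T + T), ((1 - gd X lam R t) * |Z t| +
      2 * (|Z t| ^ 2 * ‖MM X lam (range R) t‖ ^ 2 + ‖NN X lam (range R) t‖ ^ 2)) := by
    refine intervalIntegral.integral_mono_on hTH (cZ.intervalIntegrable _ _) (iL.add i5) ?_
    intro t _
    have g1 := (hG t).2
    have g2 : 0 ≤ |Z t| := abs_nonneg _
    have g3 := mul_le_mul_of_nonneg_right g1 g2
    have g4 : 4 * (‖MM X lam (range R) t‖ * ‖NN X lam (range R) t‖) * |Z t| ≤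
        2 * (|Z t| ^ 2 * ‖MM X lam (range R) t‖ ^ 2 + ‖NN X lam (range R) t‖ ^ 2) := by
      nlinarith [sq_nonneg (|Z t| * ‖MM X lam (range R) t‖ - ‖NN X lam (range R) t‖)]
    nlinarith
  rw [intervalIntegral.integral_add iL i5, intervalIntegral.integral_const_mul,
    intervalIntegral.integral_add i3 i4] at hle
  have e : T + T = 2 * T := by ring
  rw [e] at hle a1 a2 a3
  have e2 : (C1 * W ^ (-(3 / 4) : ℝ) + 2 * (C2 * W ^ (3 / 4 : ℝ) + C2 * W ^ (-(1 / 4) : ℝ))) * T *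
      Real.log T ^ (1 / 4 : ℝ) = C1 * T * Real.log T ^ (1 / 4 : ℝ) * W ^ (-(3 / 4) : ℝ) +
      2 * (C2 * T * Real.log T ^ (1 / 4 : ℝ) * W ^ (3 / 4 : ℝ) +
        C2 * T * Real.log T ^ (1 / 4 : ℝ) * W ^ (-(1 / 4) : ℝ)) := by ring
  rw [e2]
  linarith

end HZP
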