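import Pool.Agent.Work.MP_c51bc2_nt_pb.Interface
import Pool.Agent.Work.MP_c51bc2_nt_ub.B_KMN
import Pool.Agent.Work.MP_c51bc2_nt_ub.B_OSC

/-! # ZEK: the first moments of `Z e^{ikθ}` -/

set_option autoImplicit false

open Finset Complex MeasureTheory HZS HZU

namespace HZP

noncomputable section

/-- the phase `m θ(t) + t y` -/
def osg (m : ℕ) (y t : ℝ) : ℝ := (m * (∫ s in (0 : ℝ)..t, dth s) + t * y) / (2 * Real.pi)

theorem osg_rw (m : ℕ) (y t : ℝ) :
    ph t ^ m * cexp (I * ((t * y : ℝ) : ℂ)) = ph 0 ^ m * Pool.M6T.e (osg m y t) := by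
  have hpi : Real.pi ≠ 0 := Real.pi_pos.ne'
  rw [PHS_formula t, mul_pow, mul_assoc, ← Complex.exp_nat_mul, ← Complex.exp_add]
  unfold Pool.M6T.e osg
  congr 2
  rw [mul_div_cancel₀ _ (by positivity : (2 * Real.pi) ≠ 0)]
  push_cast
  ring

theorem osg_d1 (m : ℕ) (y t : ℝ) :
    HasDerivAt (osg m y) ((m * dth t + y) / (2 * Real.pi)) t := by
  have h1 : HasDerivAt (fun t : ℝ => ∫ s in (0 : ℝ)..t, dth s) (dth t) t :=
    (PHS_contdth.integral_hasStrictDerivAt 0 t).hasDerivAt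
  have h2 : HasDerivAt (fun t : ℝ => t * y) y t := by
    simpa using (hasDerivAt_id t).mul_const y
  exact ((h1.const_mul (m : ℝ)).add h2).div_const _

theorem osc_pos (hDTD : Stmt_DTD) : ∃ T0 : ℝ, 1 < T0 ∧ ∀ (T y : ℝ) (m : ℕ), T0 ≤ T → 1 ≤ m →
    -(Real.log T / 4) ≤ y →
      ‖∫ t in T..(2 * T), ph t ^ m * cexp (I * ((t * y : ℝ) : ℂ))‖ ≤ 2 := by
  obtain ⟨d2, hd2, hd2c, hd2l⟩ := hDTD
  obtain ⟨-, -, hph, C0, hC0, hlog, -⟩ := stmt_PHS
  have hpi := Real.pi_pos
  refine ⟨Real.exp (4 * (C0 + 1)), Real.one_lt_exp_iff.2 (by positivity), ?_⟩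
  intro T y m hT hm hy
  have hT1 : 1 < T := lt_of_lt_of_le (Real.one_lt_exp_iff.2 (by positivity)) hT
  have hT0 : 0 < T := by linarith
  have hTT : T ≤ 2 * T := by linarith
  have hL : 4 * (C0 + 1) ≤ Real.log T := (Real.le_log_iff_exp_le hT0).2 hT
  have e1 : ‖∫ t in T..(2 * T), ph t ^ m * cexp (I * ((t * y : ℝ) : ℂ))‖ =
      ‖∫ t in T..(2 * T), Pool.M6T.e (osg m y t)‖ := by
    simp_rw [osg_rw]
    rw [intervalIntegral.integral_const_mul, norm_mul, norm_pow, hph, one_pow, one_mul]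
  rw [e1]
  have hm1 : (1 : ℝ) ≤ m := by exact_mod_cast hm
  have hf : ∀ x ∈ Set.Icc T (2 * T),
      HasDerivAt (osg m y) ((m * dth x + y) / (2 * Real.pi)) x := fun x _ => osg_d1 m y x
  have hf' : ∀ x ∈ Set.Icc T (2 * T),
      HasDerivAt (fun x => (m * dth x + y) / (2 * Real.pi)) (m * d2 x / (2 * Real.pi)) x :=
    fun x _ => (((hd2 x).const_mul (m : ℝ)).add_const y).div_const _
  have hc : ContinuousOn (fun x => (m : ℝ) * d2 x / (2 * Real.pi)) (Set.Icc T (2 * T)) :=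
    ((hd2c.const_mul (m : ℝ)).div_const _).continuousOn
  have hmu : 0 < 1 / (2 * Real.pi) := by positivity
  have h1 := Pool.M6T.fdt hTT hmu hf hf' hc (by
    intro x hx
    have h2 := hd2l x (by linarith [hx.1])
    have h3 : 0 < 1 / (15 * x) := by
      have : 0 < x := by linarith [hx.1]
      positivity
    have h4 : 0 ≤ d2 x := by linarith
    positivity) (by
    intro x hx
    have hx0 : 0 < x := by linarith [hx.1]
    have h2 := (abs_le.1 (hlog x (by linarith [hx.1]))).1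
    have h3 : Real.log T ≤ Real.log x := Real.log_le_log hT0 hx.1
    have h4 : Real.log T / 2 - C0 ≤ dth x := by linarith
    have h5 : 0 ≤ dth x := by linarith
    have h6 : dth x ≤ m * dth x := by nlinarith
    have h7 : 1 ≤ m * dth x + y := by linarith
    gcongr)
  refine h1.trans (le_of_eq ?_)
  field_simp

theorem osc_neg (hDTD : Stmt_DTD) : ∃ T0 : ℝ, 1 < T0 ∧ ∀ (T y : ℝ) (m : ℕ), T0 ≤ T → 1 ≤ m →
    -(Real.log T / 4) ≤ y →
      ‖∫ t in T..(2 * T), (ph t ^ m)⁻¹ * cexp (-(I * ((t * y : ℝ) : ℂ)))‖ ≤ 2 := by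
  obtain ⟨T0, hT0, h⟩ := osc_pos hDTD
  obtain ⟨-, -, hph, -⟩ := stmt_PHS
  refine ⟨T0, hT0, ?_⟩
  intro T y m hT hm hy
  have h1 := h T y m hT hm hy
  have hTT : T ≤ 2 * T := by linarith
  have e1 : ∫ t in T..(2 * T), (ph t ^ m)⁻¹ * cexp (-(I * ((t * y : ℝ) : ℂ))) =
      (starRingEnd ℂ) (∫ t in T..(2 * T), ph t ^ m * cexp (I * ((t * y : ℝ) : ℂ))) := by
    rw [intervalIntegral.integral_of_le hTT, intervalIntegral.integral_of_le hTT,
      ← integral_conj]
    apply integral_congr_ae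
    refine Filter.Eventually.of_forall fun t => ?_
    simp only
    have e2 : (starRingEnd ℂ) (ph t) = (ph t)⁻¹ := by
      rw [Complex.inv_def, Complex.normSq_eq_norm_sq, hph]
      simp
    rw [map_mul, map_pow, e2, inv_pow, ← Complex.exp_conj, map_mul, Complex.conj_I,
      Complex.conj_ofReal]
    congr 2
    ring
  rw [e1, Complex.norm_conj]
  exact h1

/-- `ζ` against a negative power of the phase -/
theorem zet_neg (hDTD : Stmt_DTD) (hZS : Stmt_ZS) : ∃ C T0 : ℝ, 0 < C ∧ 1 < T0 ∧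
    ∀ (T y : ℝ) (m : ℕ), T0 ≤ T → 1 ≤ m → -(Real.log T / 4) ≤ y →
      ‖∫ t in T..(2 * T), riemannZeta (1 / 2 + I * t) * ((ph t ^ m)⁻¹ *
        cexp (-(I * ((t * y : ℝ) : ℂ))))‖ ≤ C * Real.sqrt T := by
  obtain ⟨T1, hT1, hO⟩ := osc_neg hDTD
  obtain ⟨C2, T2, hC2, hT2, hZ⟩ := hZS
  obtain ⟨hphc, -, hphn, -⟩ := stmt_PHS
  refine ⟨C2 + 12, max T1 T2, by positivity, lt_of_lt_of_le hT1 (le_max_left _ _), ?_⟩
  intro T y m hT hm hy
  have hTa : T1 ≤ T := le_trans (le_max_left _ _) hT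
  have hTb : T2 ≤ T := le_trans (le_max_right _ _) hT
  have hT1' : 1 < T := lt_of_lt_of_le hT1 hTa
  have hT0 : 0 < T := by linarith
  have hTT : T ≤ 2 * T := by linarith
  have hne : ∀ t, ph t ≠ 0 := fun t h => by
    have := hphn t
    rw [h, norm_zero] at this
    exact zero_ne_one this
  have hphm : Continuous fun t => (ph t ^ m)⁻¹ :=
    (hphc.pow m).inv₀ (fun t => pow_ne_zero _ (hne t))
  have hec : Continuous fun t : ℝ => cexp (-(I * ((t * y : ℝ) : ℂ))) := by fun_prop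
  have hW : Continuous fun t : ℝ => (ph t ^ m)⁻¹ * cexp (-(I * ((t * y : ℝ) : ℂ))) :=
    hphm.mul hec
  have hWn : ∀ t : ℝ, ‖(ph t ^ m)⁻¹ * cexp (-(I * ((t * y : ℝ) : ℂ)))‖ = 1 := by
    intro t
    have e : -(I * ((t * y : ℝ) : ℂ)) = ((-(t * y) : ℝ) : ℂ) * I := by push_cast; ring
    rw [norm_mul, norm_inv, norm_pow, hphn, e, Complex.norm_exp_ofReal_mul_I]
    simp
  set S : ℝ → ℂ := fun t => ∑ k ∈ Icc 1 (N0 T), mo k t with hS
  have hSc : Continuous S := by
    rw [hS]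
    apply continuous_finsetSum
    intro k hk
    exact TF_mo_cont (Finset.mem_Icc.1 hk).1
  have hA : ‖∫ t in T..(2 * T), (riemannZeta (1 / 2 + I * t) - S t) * ((ph t ^ m)⁻¹ *
        cexp (-(I * ((t * y : ℝ) : ℂ))))‖ ≤ C2 * Real.sqrt T := by
    have h1 : ∀ t ∈ Set.uIoc T (2 * T), ‖(riemannZeta (1 / 2 + I * t) - S t) * ((ph t ^ m)⁻¹ *
        cexp (-(I * ((t * y : ℝ) : ℂ))))‖ ≤ C2 / Real.sqrt T := by
      intro t ht
      rw [Set.uIoc_of_le hTT] at ht
      rw [norm_mul, hWn, mul_one]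
      exact hZ T t hTb (by linarith [ht.1]) (by linarith [ht.2])
    refine (intervalIntegral.norm_integral_le_of_norm_le_const h1).trans (le_of_eq ?_)
    rw [show 2 * T - T = T by ring, abs_of_pos hT0, div_mul_eq_mul_div, mul_div_assoc]
    congr 1
    exact Real.div_sqrt
  have hB : ‖∫ t in T..(2 * T), S t * ((ph t ^ m)⁻¹ *
        cexp (-(I * ((t * y : ℝ) : ℂ))))‖ ≤ 12 * Real.sqrt T := by
    have e1 : ∫ t in T..(2 * T), S t * ((ph t ^ m)⁻¹ * cexp (-(I * ((t * y : ℝ) : ℂ)))) =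
        ∑ k ∈ Icc 1 (N0 T), ((1 / Real.sqrt k : ℝ) : ℂ) *
          ∫ t in T..(2 * T), (ph t ^ m)⁻¹ *
            cexp (-(I * ((t * (y + Real.log k) : ℝ) : ℂ))) := by
      have e2 : ∀ t : ℝ, S t * ((ph t ^ m)⁻¹ * cexp (-(I * ((t * y : ℝ) : ℂ)))) =
          ∑ k ∈ Icc 1 (N0 T), ((1 / Real.sqrt k : ℝ) : ℂ) * ((ph t ^ m)⁻¹ *
            cexp (-(I * ((t * (y + Real.log k) : ℝ) : ℂ)))) := by
        intro t
        rw [hS]
        simp only
        rw [Finset.sum_mul]
        apply Finset.sum_congr rfl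
        intro k hk
        rw [TF_mo (Finset.mem_Icc.1 hk).1]
        have e3 : -(I * ((t * (y + Real.log k) : ℝ) : ℂ)) =
            ((-Real.log k : ℝ) : ℂ) * I * t + -(I * ((t * y : ℝ) : ℂ)) := by
          push_cast; ring
        rw [e3, Complex.exp_add]
        ring
      simp_rw [e2]
      rw [intervalIntegral.integral_finsetSum]
      · apply Finset.sum_congr rfl
        intro k _
        rw [intervalIntegral.integral_const_mul]
      · intro k _
        apply Continuous.intervalIntegrable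
        exact continuous_const.mul (hphm.mul (by fun_prop))
    rw [e1]
    have hterm : ∀ k ∈ Icc 1 (N0 T), ‖((1 / Real.sqrt k : ℝ) : ℂ) *
        ∫ t in T..(2 * T), (ph t ^ m)⁻¹ * cexp (-(I * ((t * (y + Real.log k) : ℝ) : ℂ)))‖ ≤
        1 / Real.sqrt k * 2 := by
      intro k hk
      have hk1 : 1 ≤ k := (Finset.mem_Icc.1 hk).1
      rw [norm_mul, Complex.norm_real, Real.norm_of_nonneg (by positivity)]
      have h2 : 0 ≤ Real.log k := Real.log_nonneg (by exact_mod_cast hk1)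
      have h1 := hO T (y + Real.log k) m hTa hm (by linarith)
      gcongr
    refine (norm_sum_le _ _).trans ((Finset.sum_le_sum hterm).trans ?_)
    rw [← Finset.sum_mul]
    have h11 : ∑ k ∈ Icc 1 (N0 T), 1 / Real.sqrt k ≤ 6 * Real.sqrt T := by
      refine (TF_sqrt _).trans ?_
      have h12 : ((N0 T : ℕ) : ℝ) ≤ 9 * T := by
        unfold N0
        push_cast
        have := Nat.ceil_lt_add_one (show (0 : ℝ) ≤ 3 * T by positivity)
        linarith
      have h13 : Real.sqrt (N0 T) ≤ 3 * Real.sqrt T := by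
        have h14 : (9 : ℝ) * T = (3 * Real.sqrt T) ^ 2 := by
          rw [mul_pow, Real.sq_sqrt hT0.le]; norm_num
        rw [h14] at h12
        exact Real.sqrt_le_iff.2 ⟨by positivity, h12⟩
      linarith
    linarith
  have e3 : ∫ t in T..(2 * T), riemannZeta (1 / 2 + I * t) * ((ph t ^ m)⁻¹ *
        cexp (-(I * ((t * y : ℝ) : ℂ)))) =
      (∫ t in T..(2 * T), (riemannZeta (1 / 2 + I * t) - S t) * ((ph t ^ m)⁻¹ *
        cexp (-(I * ((t * y : ℝ) : ℂ))))) +
      ∫ t in T..(2 * T), S t * ((ph t ^ m)⁻¹ * cexp (-(I * ((t * y : ℝ) : ℂ)))) := by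
    rw [← intervalIntegral.integral_add]
    · apply intervalIntegral.integral_congr
      intro t _
      simp only
      ring
    · exact ((TF_zeta_cont.sub hSc).mul hW).intervalIntegrable _ _
    · exact (hSc.mul hW).intervalIntegrable _ _
  rw [e3]
  refine (norm_add_le _ _).trans ((add_le_add hA hB).trans (le_of_eq ?_))
  ring

theorem ph_inv_conj (t : ℝ) : (starRingEnd ℂ) (ph t) = (ph t)⁻¹ := by
  obtain ⟨-, -, hph, -⟩ := stmt_PHS
  rw [Complex.inv_def, Complex.normSq_eq_norm_sq, hph]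
  simp

theorem ph_ne (t : ℝ) : ph t ≠ 0 := fun h => by
  obtain ⟨-, -, hphn, -⟩ := stmt_PHS
  have := hphn t
  rw [h, norm_zero] at this
  exact zero_ne_one this

theorem int_conj {a b : ℝ} (f : ℝ → ℂ) : (starRingEnd ℂ) (∫ t in a..b, f t) =
    ∫ t in a..b, (starRingEnd ℂ) (f t) := by
  unfold intervalIntegral
  rw [map_sub, integral_conj, integral_conj]

theorem stmt_ZEK (hDTD : Stmt_DTD) (hZS : Stmt_ZS) (hRZ : Stmt_RZ) (hKMN : Stmt_KMN)
    (hOFF : HZU.Stmt_OFF) : Stmt_ZEK := by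
  obtain ⟨C1, T1, hC1, hT1, h1⟩ := hKMN
  obtain ⟨C2, T2, hC2, hT2, h2⟩ := hOFF
  obtain ⟨C3, T3, hC3, hT3, h3⟩ := zet_neg hDTD hZS
  refine ⟨C1 + C2 + C3, max T1 (max T2 T3), by positivity,
    lt_of_lt_of_le hT1 (le_max_left _ _), ?_⟩
  intro T k hT
  have hTa : T1 ≤ T := le_trans (le_max_left _ _) hT
  have hTb : T2 ≤ T := le_trans (le_trans (le_max_left _ _) (le_max_right _ _)) hT
  have hTc : T3 ≤ T := le_trans (le_trans (le_max_right _ _) (le_max_right _ _)) hT
  have hTg1 : 1 < T := lt_of_lt_of_le hT1 hTa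
  have hT0 : 0 < T := by linarith
  have hq : 0 < T ^ (3 / 4 : ℝ) := Real.rpow_pos_of_pos hT0 _
  have hsq : Real.sqrt T ≤ T ^ (3 / 4 : ℝ) := by
    rw [Real.sqrt_eq_rpow]
    exact Real.rpow_le_rpow_of_exponent_le hTg1.le (by norm_num)
  -- the case k ≤ 0
  have key : ∀ k : ℤ, k ≤ 0 → ‖(∫ t in T..(2 * T), (Z t : ℂ) * ph t ^ k) -
      (if k = 1 ∨ k = -1 then (T : ℂ) else 0)‖ ≤ (C1 + C2 + C3) * T ^ (3 / 4 : ℝ) := by
    intro k hk
    rcases eq_or_ne k 0 with hk0 | hk0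
    · subst hk0
      have h4 := h1 T 0 hTa
      simp only [zpow_zero, mul_one]
      simp only [mul_zero, Complex.ofReal_zero, Complex.exp_zero, mul_one] at h4
      norm_num
      calc _ ≤ C1 * T ^ (3 / 4 : ℝ) := h4
        _ ≤ _ := by nlinarith
    rcases eq_or_ne k (-1) with hk1 | hk1
    · subst hk1
      have h4 := h2 T 1 (fun _ => 1) hTb le_rfl (by exact_mod_cast hTg1.le)
      have e1 : (∫ t in T..(2 * T), (Z t : ℂ) * ph t ^ (-1 : ℤ)) =
          ∫ t in T..(2 * T), riemannZeta (1 / 2 + I * t) := by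
        apply intervalIntegral.integral_congr
        intro t _
        simp only
        rw [KMN_Z hRZ, zpow_neg_one]
        have := ph_ne t
        field_simp
      have e2 : (∫ t in T..(2 * T), riemannZeta (1 / 2 + I * t) * D (fun _ => 1) 1 t *
        (starRingEnd ℂ) (D (cv (fun _ => 1)) 1 t)) =
          ∫ t in T..(2 * T), riemannZeta (1 / 2 + I * t) := by
        apply intervalIntegral.integral_congr
        intro t _
        simp [D, cv, mo]
      have e3 : S2 (cv (fun _ => 1)) 1 = 1 := by simp [S2, cv]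
      have e4 : S2 (fun _ => 1) 1 = 1 := by simp [S2]
      rw [e2, e3, e4] at h4
      simp only [Real.sqrt_one, mul_one, Nat.cast_one, one_pow] at h4
      rw [e1, if_pos (Or.inr rfl)]
      calc _ ≤ C2 * Real.sqrt T := h4
        _ ≤ C2 * T ^ (3 / 4 : ℝ) := by gcongr
        _ ≤ _ := by nlinarith
    · have hk2 : k ≤ -2 := by omega
      obtain ⟨m, hm⟩ : ∃ m : ℕ, (m : ℤ) = -(k + 1) := ⟨(-(k + 1)).toNat, by omega⟩
      have hm1 : 1 ≤ m := by omega
      have h4 := h3 T 0 m hTc hm1 (by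
        have := Real.log_pos hTg1
        linarith)
      have e1 : (∫ t in T..(2 * T), (Z t : ℂ) * ph t ^ k) =
          ∫ t in T..(2 * T), riemannZeta (1 / 2 + I * t) * ((ph t ^ m)⁻¹ *
            cexp (-(I * ((t * 0 : ℝ) : ℂ)))) := by
        apply intervalIntegral.integral_congr
        intro t _
        simp only
        have hp := ph_ne t
        have e5 : k = -1 + -(m : ℤ) := by omega
        rw [KMN_Z hRZ, e5, zpow_add₀ hp, zpow_neg_one, zpow_neg, zpow_natCast]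
        simp only [mul_zero, Complex.ofReal_zero, neg_zero, Complex.exp_zero, mul_one]
        field_simp
      rw [if_neg (by omega), sub_zero, e1]
      calc _ ≤ C3 * Real.sqrt T := h4
        _ ≤ C3 * T ^ (3 / 4 : ℝ) := by gcongr
        _ ≤ _ := by nlinarith
  rcases le_total k 0 with hk | hk
  · exact key k hk
  · have h4 := key (-k) (by omega)
    have e1 : (∫ t in T..(2 * T), (Z t : ℂ) * ph t ^ k) - (if k = 1 ∨ k = -1 then (T : ℂ) else 0) =
        (starRingEnd ℂ) ((∫ t in T..(2 * T), (Z t : ℂ) * ph t ^ (-k)) -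
          (if -k = 1 ∨ -k = -1 then (T : ℂ) else 0)) := by
      rw [map_sub, int_conj]
      congr 1
      · apply intervalIntegral.integral_congr
        intro t _
        simp only
        rw [map_mul, Complex.conj_ofReal, map_zpow₀, ph_inv_conj, inv_zpow', neg_neg]
      · by_cases h : k = 1 ∨ k = -1
        · rw [if_pos h, if_pos (by omega), Complex.conj_ofReal]
        · rw [if_neg h, if_neg (by omega), map_zero]
    rw [e1, Complex.norm_conj]
    exact h4

end

end HZP
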