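import Pool.Agent.Work.MP_c51bc2_nt_ub.All
import Pool.Agent.Work.MP_c51bc2_nt_s.All
import Pool.Agent.Work.MP_c51bc2_nt_lb.B_GDM
import Pool.Agent.Work.MP_c51bc2_nt_lb.B_MES
import Pool.Agent.Work.MP_c51bc2_nt_lb.B_OFF
import Pool.Agent.Work.MP_c51bc2_nt_lb.B_OFP
import Pool.Agent.Work.MP_c51bc2_nt_lb.B_TWN
import Pool.Agent.Work.MP_c51bc2_nt_pb.B_THX
import Pool.Agent.Work.MP_c51bc2_nt_pb.B_IND
import Pool.Agent.Work.MP_c51bc2_nt_pb.B_FOU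
import Pool.Agent.Work.MP_c51bc2_nt_pb.B_EQD2
import Pool.Agent.Work.MP_c51bc2_nt_pb.B_ZEK
import Pool.Agent.Work.MP_c51bc2_nt_pb.B_SGN
import Pool.Agent.Work.MP_c51bc2_nt_pb.B_TFK
import Pool.Agent.Work.MP_c51bc2_nt_pb.B_UPZ
import Pool.Agent.Work.MP_c51bc2_nt_pb.B_LBW
import Pool.Agent.Work.MP_c51bc2_nt_pb.B_KRN
import Pool.Agent.Work.MP_c51bc2_nt_pb.B_LOE
import Pool.Agent.Work.MP_c51bc2_nt_pb.B_FIN

/-! All the blocks of THEOREM PB together. -/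

set_option autoImplicit false

open Finset Complex MeasureTheory HZS

namespace HZP

theorem pb_ZEK : Stmt_ZEK :=
  stmt_ZEK HZU.stmt_DTD stmt_ZS stmt_RZ HZU.all_KMN HZU.all_OFF
theorem pb_TFK : Stmt_TFK := stmt_TFK HZU.stmt_DTD stmt_ZS stmt_RZ HZU.all_KMN
theorem pb_OFP : Stmt_OFP := p_OFP stmt_TR
theorem pb_OFF : HZS.Stmt_OFF := p_OFF alls_TW0 alls_MO pb_OFP p_MES alls_ZC
theorem pb_UPZ : Stmt_UPZ :=
  stmt_UPZ alls_PAR pb_OFF (p_GDM p_MES) (p_TWN alls_TW0 alls_MO) p_MES alls_ZC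
theorem pb_SGN : Stmt_SGN :=
  stmt_SGN stmt_THX stmt_IND (stmt_FOU stmt_IND) (stmt_EQD2 stmt_PHS stmt_THX) pb_ZEK HZU.all_ZSQ alls_ZC
theorem pb_LBW : Stmt_LBW :=
  stmt_LBW alls_TW0 alls_MO2 alls_TF alls_DL stmt_TU alls_CO alls_PAR stmt_RZ stmt_PHS alls_ZC
    pb_TFK
theorem pb_LOE : Stmt_LOE :=
  stmt_LOE pb_LBW stmt_KRN pb_UPZ stmt_THX stmt_IND stmt_PHS alls_ZC
theorem pb_FIN : Stmt_FIN := stmt_FIN stmt_THX stmt_IND pb_SGN pb_LOE alls_ZC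

/-- the final statement -/
theorem final_PB :
    ∃ Z : ℝ → ℝ,
      (∀ t : ℝ, (Z t : ℂ) =
        (Real.pi : ℂ) ^ (-(I * t / 2)) * Complex.Gamma (1 / 4 + I * t / 2) /
          (‖Complex.Gamma (1 / 4 + I * t / 2)‖ : ℂ) * riemannZeta (1 / 2 + I * t)) ∧
      (∃ C T₀ : ℝ, 0 < C ∧ 1 < T₀ ∧
        ∀ T α β : ℝ, T₀ ≤ T → α ≤ β → β ≤ α + 2 * Real.pi → ∀ E : Set ℝ,
          E = {t : ℝ | t ∈ Set.Icc T (2 * T) ∧ ∃ φ ∈ Set.Ioo α β, cexp (I * (φ : ℂ)) =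
            (Real.pi : ℂ) ^ (-(I * t / 2)) * Complex.Gamma (1 / 4 + I * t / 2) /
              (‖Complex.Gamma (1 / 4 + I * t / 2)‖ : ℂ)} →
          |(∫ t in E, max (Z t) 0) + (∫ t in E, min (Z t) 0) -
            (Real.sin β - Real.sin α) / Real.pi * T| ≤ C * T ^ (3 / 4 : ℝ) * Real.log T) ∧
      ∀ η : ℝ, 0 < η → ∃ c T₀ : ℝ, 0 < c ∧ 1 < T₀ ∧
        ∀ T α β : ℝ, T₀ ≤ T → α + η ≤ β → ∀ E : Set ℝ,
          E = {t : ℝ | t ∈ Set.Icc T (2 * T) ∧ ∃ φ ∈ Set.Ioo α β, cexp (I * (φ : ℂ)) =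
            (Real.pi : ℂ) ^ (-(I * t / 2)) * Complex.Gamma (1 / 4 + I * t / 2) /
              (‖Complex.Gamma (1 / 4 + I * t / 2)‖ : ℂ)} →
          c * T * Real.log T ^ (1 / 4 : ℝ) ≤ ∫ t in E, max (Z t) 0 ∧
          c * T * Real.log T ^ (1 / 4 : ℝ) ≤ -∫ t in E, min (Z t) 0 := by
  refine ⟨HZS.Z, fun t => HZU.KMN_Z stmt_RZ t, ?_, ?_⟩
  · obtain ⟨C, T0, hC, hT0, h⟩ := pb_FIN.1
    refine ⟨C, T0, hC, hT0, ?_⟩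
    intro T α β hT h1 h2 E hE
    rw [hE]
    exact h T α β hT h1 h2
  · intro η hη
    obtain ⟨c, T0, hc, hT0, h⟩ := pb_FIN.2 η hη
    refine ⟨c, T0, hc, hT0, ?_⟩
    intro T α β hT h1 E hE
    rw [hE]
    exact h T α β hT h1

end HZP
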