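import Pool.Agent.Work.MP_c51bc2_nt_pb.Interface

set_option autoImplicit false

open Finset Complex MeasureTheory HZS

namespace HZP

namespace FOUx

/-- the integral of `e^{-ikx}` -/
theorem int_exp {k : ℤ} (hk : k ≠ 0) (a b : ℝ) :
    ∫ x in a..b, cexp (-(I * ((k * x : ℝ) : ℂ))) =
      (cexp (-(I * ((k * b : ℝ) : ℂ))) - cexp (-(I * ((k * a : ℝ) : ℂ)))) / (-(I * (k : ℂ))) := by
  have hc : -(I * (k : ℂ)) ≠ 0 := by
    simp [hk, I_ne_zero]
  have h := integral_exp_mul_complex (a := a) (b := b) hc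
  have e : ∀ x : ℝ, cexp (-(I * ((k * x : ℝ) : ℂ))) = cexp (-(I * (k : ℂ)) * (x : ℂ)) := by
    intro x; congr 1; push_cast; ring
  simp only [e]
  exact h

theorem norm_e (y : ℝ) : ‖cexp (-(I * (y : ℂ)))‖ = 1 := by
  have e : -(I * (y : ℂ)) = ((-y : ℝ) : ℂ) * I := by push_cast; ring
  rw [e, Complex.norm_exp_ofReal_mul_I]

theorem norm_e' (y : ℝ) : ‖cexp (I * (y : ℂ))‖ = 1 := by
  rw [mul_comm, Complex.norm_exp_ofReal_mul_I]

theorem ck_norm (α β : ℝ) {k : ℤ} (hk : k ≠ 0) : ‖ck α β k‖ ≤ 1 / (Real.pi * |(k : ℝ)|) := by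
  have hk' : 0 < |(k : ℝ)| := abs_pos.2 (by exact_mod_cast hk)
  have hp := Real.pi_pos
  unfold ck
  rw [int_exp hk, norm_mul, norm_div]
  have h1 : ‖(((1 / (2 * Real.pi) : ℝ)) : ℂ)‖ = 1 / (2 * Real.pi) := by
    rw [Complex.norm_real, Real.norm_of_nonneg (by positivity)]
  have h2 : ‖cexp (-(I * ((k * β : ℝ) : ℂ))) - cexp (-(I * ((k * α : ℝ) : ℂ)))‖ ≤ 2 := by
    refine (norm_sub_le _ _).trans ?_
    rw [norm_e, norm_e]; norm_num
  have h3 : ‖-(I * (k : ℂ))‖ = |(k : ℝ)| := by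
    rw [norm_neg, norm_mul, Complex.norm_I, one_mul, Complex.norm_intCast]
  rw [h1, h3]
  calc 1 / (2 * Real.pi) * (‖cexp (-(I * ((k * β : ℝ) : ℂ))) - cexp (-(I * ((k * α : ℝ) : ℂ)))‖ / |(k : ℝ)|)
      ≤ 1 / (2 * Real.pi) * (2 / |(k : ℝ)|) := by gcongr
    _ = 1 / (Real.pi * |(k : ℝ)|) := by field_simp

theorem ind_eq {α β x : ℝ} (hβ : β ≤ α + 2 * Real.pi) (hx : x ∈ Set.Ioc α (α + 2 * Real.pi)) :
    ind α β x = (Set.Ioo α β).indicator (fun _ => (1 : ℝ)) x := by
  unfold ind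
  by_cases h : x ∈ Set.Ioo α β
  · rw [if_pos ⟨x, h, rfl⟩, Set.indicator_of_mem h]
  · rw [if_neg, Set.indicator_of_notMem h]
    rintro ⟨φ, hφ, e⟩
    rw [Complex.exp_eq_exp_iff_exists_int] at e
    obtain ⟨n, hn⟩ := e
    have e2 : φ = x + n * (2 * Real.pi) := by
      have := congrArg Complex.im hn
      simpa using this
    have hp := Real.pi_pos
    have h1 : (n : ℝ) < 1 := by
      by_contra hc
      push Not at hc
      have : (2 * Real.pi) ≤ n * (2 * Real.pi) := by nlinarith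
      have := hφ.2
      have := hx.1
      linarith
    have h2 : (-1 : ℝ) < n := by
      by_contra hc
      push Not at hc
      have : n * (2 * Real.pi) ≤ -(2 * Real.pi) := by nlinarith
      have := hφ.1
      have := hx.2
      linarith
    have h3 : n = 0 := by
      have h1' : n < 1 := by exact_mod_cast h1
      have h2' : -1 < n := by exact_mod_cast h2
      omega
    subst h3
    simp only [Int.cast_zero, zero_mul, add_zero] at e2
    exact h (e2 ▸ hφ)

theorem int_ind (hIND : Stmt_IND) {α β : ℝ} (h1 : α ≤ β) (h2 : β ≤ α + 2 * Real.pi) (G : ℝ → ℂ)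
    (hG : ∀ x, G (x + 2 * Real.pi) = G x) :
    ∫ x in (0 : ℝ)..(2 * Real.pi), G x * (ind α β x : ℂ) = ∫ x in α..β, G x := by
  have hper : Function.Periodic (fun x => G x * (ind α β x : ℂ)) (2 * Real.pi) := by
    intro x
    simp only [hG, (hIND α β).2.2 x]
  have e1 := hper.intervalIntegral_add_eq 0 α
  rw [zero_add] at e1
  rw [e1]
  have hp := Real.pi_pos
  rw [intervalIntegral.integral_of_le (by linarith), intervalIntegral.integral_of_le h1]
  have e2 : Set.EqOn (fun x => G x * (ind α β x : ℂ)) ((Set.Ioo α β).indicator G) (Set.Ioc α (α + 2 * Real.pi)) := by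
    intro x hx
    simp only
    rw [ind_eq h2 hx]
    by_cases h : x ∈ Set.Ioo α β
    · simp [Set.indicator_of_mem h]
    · simp [Set.indicator_of_notMem h]
  rw [setIntegral_congr_fun measurableSet_Ioc e2, setIntegral_indicator measurableSet_Ioo]
  have e3 : Set.Ioc α (α + 2 * Real.pi) ∩ Set.Ioo α β = Set.Ioo α β :=
    Set.inter_eq_right.2 fun x hx => ⟨hx.1, hx.2.le.trans h2⟩
  rw [e3, integral_Ioc_eq_integral_Ioo]

theorem fc (F : ℝ → ℂ) (n : ℤ) : fourierCoeffOn Real.two_pi_pos F n =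
    ((1 / (2 * Real.pi) : ℝ) : ℂ) *
      ∫ x in (0 : ℝ)..(2 * Real.pi), cexp (-(I * ((n * x : ℝ) : ℂ))) * F x := by
  rw [fourierCoeffOn_eq_integral]
  simp only [fourier_coe_apply]
  rw [sub_zero, Complex.real_smul]
  congr 1
  refine intervalIntegral.integral_congr fun x _ => ?_
  simp only [smul_eq_mul]
  congr 2
  have : (Real.pi : ℂ) ≠ 0 := by exact_mod_cast Real.pi_ne_zero
  push_cast
  field_simp

theorem orth (j k : ℤ) : ∫ x in (0 : ℝ)..(2 * Real.pi),
    cexp (-(I * ((j * x : ℝ) : ℂ))) * cexp (I * ((k * x : ℝ) : ℂ)) =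
      if j = k then ((2 * Real.pi : ℝ) : ℂ) else 0 := by
  have e : ∀ x : ℝ, cexp (-(I * ((j * x : ℝ) : ℂ))) * cexp (I * ((k * x : ℝ) : ℂ)) =
      cexp (-(I * (((j - k : ℤ) * x : ℝ) : ℂ))) := by
    intro x
    rw [← Complex.exp_add]
    congr 1; push_cast; ring
  simp only [e]
  split_ifs with h
  · subst h
    simp
  · rw [int_exp (sub_ne_zero.2 h)]
    have e1 : cexp (-(I * (((j - k : ℤ) * (2 * Real.pi) : ℝ) : ℂ))) = 1 := by
      rw [Complex.exp_eq_one_iff]
      exact ⟨-(j - k), by push_cast; ring⟩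
    rw [e1]
    simp

theorem cont_e (j : ℤ) : Continuous fun x : ℝ => cexp (-(I * ((j * x : ℝ) : ℂ))) := by
  fun_prop

theorem cont_sK (α β : ℝ) (K : ℕ) : Continuous (sK α β K) := by
  unfold sK
  fun_prop

theorem meas_ind (hIND : Stmt_IND) (α β : ℝ) : Measurable fun x => (ind α β x : ℂ) :=
  Complex.measurable_ofReal.comp (hIND α β).1

theorem norm_ind (hIND : Stmt_IND) (α β x : ℝ) : ‖(ind α β x : ℂ)‖ ≤ 1 := by
  rw [Complex.norm_real, Real.norm_of_nonneg ((hIND α β).2.1 x).1]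
  exact ((hIND α β).2.1 x).2

theorem fc_g (hIND : Stmt_IND) {α β : ℝ} (h1 : α ≤ β) (h2 : β ≤ α + 2 * Real.pi) (K : ℕ) (j : ℤ) :
    fourierCoeffOn Real.two_pi_pos (fun x => (ind α β x : ℂ) - sK α β K x) j =
      if j ∈ Finset.Icc (-(K : ℤ)) (K : ℤ) then 0 else ck α β j := by
  rw [fc]
  have e0 : ∀ x : ℝ, cexp (-(I * ((j * x : ℝ) : ℂ))) * ((ind α β x : ℂ) - sK α β K x) =
      cexp (-(I * ((j * x : ℝ) : ℂ))) * (ind α β x : ℂ) -
        ∑ k ∈ Finset.Icc (-(K : ℤ)) (K : ℤ), ck α β k *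
          (cexp (-(I * ((j * x : ℝ) : ℂ))) * cexp (I * ((k * x : ℝ) : ℂ))) := by
    intro x
    rw [mul_sub, sK, Finset.mul_sum]
    congr 1
    refine Finset.sum_congr rfl fun k _ => ?_
    ring
  simp only [e0]
  have i1 : IntervalIntegrable (fun x : ℝ => cexp (-(I * ((j * x : ℝ) : ℂ))) * (ind α β x : ℂ)) volume 0
      (2 * Real.pi) := by
    rw [intervalIntegrable_iff]
    refine Measure.integrableOn_of_bounded (M := 1) (by simp [Set.uIoc]) ?_ ?_
    · exact ((cont_e j).measurable.mul (meas_ind hIND α β)).aestronglyMeasurable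
    · refine Filter.Eventually.of_forall fun x => ?_
      rw [norm_mul, norm_e, one_mul]
      exact norm_ind hIND α β x
  have i2 : ∀ k ∈ Finset.Icc (-(K : ℤ)) (K : ℤ), IntervalIntegrable (fun x : ℝ => ck α β k *
          (cexp (-(I * ((j * x : ℝ) : ℂ))) * cexp (I * ((k * x : ℝ) : ℂ)))) volume 0 (2 * Real.pi) := by
    intro k _
    apply Continuous.intervalIntegrable
    fun_prop
  have i3 : IntervalIntegrable (fun x : ℝ => ∑ k ∈ Finset.Icc (-(K : ℤ)) (K : ℤ), ck α β k *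
          (cexp (-(I * ((j * x : ℝ) : ℂ))) * cexp (I * ((k * x : ℝ) : ℂ)))) volume 0 (2 * Real.pi) := by
    apply Continuous.intervalIntegrable
    fun_prop
  rw [intervalIntegral.integral_sub i1 i3, intervalIntegral.integral_finset_sum i2]
  rw [int_ind hIND h1 h2 (fun x => cexp (-(I * ((j * x : ℝ) : ℂ)))) ?_]
  · simp only [intervalIntegral.integral_const_mul, orth, mul_ite, mul_zero]
    rw [Finset.sum_ite_eq]
    have hp : (Real.pi : ℂ) ≠ 0 := by exact_mod_cast Real.pi_ne_zero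
    split_ifs with h
    · unfold ck
      push_cast
      field_simp
      ring
    · unfold ck
      rw [sub_zero]
  · intro x
    rw [Complex.exp_eq_exp_iff_exists_int]
    exact ⟨-j, by push_cast; ring⟩

theorem tail (f : ℤ → ℝ) (K : ℕ) (hK : 1 ≤ K) {A : ℝ} (hA : 0 ≤ A)
    (h0 : ∀ i ∈ Finset.Icc (-(K : ℤ)) K, f i = 0) (hf : ∀ i, 0 ≤ f i)
    (h1 : ∀ i : ℤ, i ≠ 0 → f i ≤ A / (i : ℝ) ^ 2) (s : Finset ℤ) : ∑ i ∈ s, f i ≤ 2 * A / K := by
  have hK' : (0 : ℝ) < K := by exact_mod_cast hK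
  have key : ∀ n : ℕ, ∑ i ∈ Finset.Icc (-((K + n : ℕ) : ℤ)) ((K + n : ℕ) : ℤ), f i ≤
      2 * A * (1 / K - 1 / ((K + n : ℕ) : ℝ)) := by
    intro n
    induction n with
    | zero =>
      rw [Nat.add_zero, Finset.sum_eq_zero h0]
      simp
    | succ n ih =>
      have e : Finset.Icc (-((K + (n + 1) : ℕ) : ℤ)) ((K + (n + 1) : ℕ) : ℤ) =
          insert ((K + (n + 1) : ℕ) : ℤ) (insert (-((K + (n + 1) : ℕ) : ℤ))
            (Finset.Icc (-((K + n : ℕ) : ℤ)) ((K + n : ℕ) : ℤ))) := by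
        ext i
        simp only [Finset.mem_Icc, Finset.mem_insert]
        push_cast
        omega
      rw [e, Finset.sum_insert (by simp only [Finset.mem_Icc, Finset.mem_insert]; push_cast; omega),
        Finset.sum_insert (by simp only [Finset.mem_Icc]; push_cast; omega)]
      have a1 := h1 ((K + (n + 1) : ℕ) : ℤ) (by push_cast; omega)
      have a2 := h1 (-((K + (n + 1) : ℕ) : ℤ)) (by push_cast; omega)
      have hn : (0 : ℝ) < ((K + n : ℕ) : ℝ) := by
        exact_mod_cast (by omega : 0 < K + n)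
      have e1 : (((K + (n + 1) : ℕ) : ℤ) : ℝ) = ((K + n : ℕ) : ℝ) + 1 := by push_cast; ring
      have e2 : ((-((K + (n + 1) : ℕ) : ℤ) : ℤ) : ℝ) = -(((K + n : ℕ) : ℝ) + 1) := by push_cast; ring
      have e3 : ((K + (n + 1) : ℕ) : ℝ) = ((K + n : ℕ) : ℝ) + 1 := by push_cast; ring
      rw [e1] at a1
      rw [e2, neg_sq] at a2
      rw [e3]
      set N : ℝ := ((K + n : ℕ) : ℝ) with hN
      have a3 : A / (N + 1) ^ 2 ≤ A * (1 / N - 1 / (N + 1)) := by
        have b1 : 1 / N - 1 / (N + 1) = 1 / (N * (N + 1)) := by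
          field_simp
          ring
        rw [b1, div_eq_mul_one_div A]
        refine mul_le_mul_of_nonneg_left ?_ hA
        refine one_div_le_one_div_of_le (by positivity) ?_
        nlinarith
      have a4 : 2 * A * (1 / K - 1 / (N + 1)) = 2 * A * (1 / K - 1 / N) + 2 * (A * (1 / N - 1 / (N + 1))) := by
        ring
      linarith
  obtain ⟨n, hn⟩ : ∃ n : ℕ, s ⊆ Finset.Icc (-((K + n : ℕ) : ℤ)) ((K + n : ℕ) : ℤ) := by
    refine ⟨s.sup Int.natAbs, fun i hi => ?_⟩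
    have := Finset.le_sup (f := Int.natAbs) hi
    rw [Finset.mem_Icc]
    push_cast
    omega
  refine (Finset.sum_le_sum_of_subset_of_nonneg hn fun i _ _ => hf i).trans ((key n).trans ?_)
  have hn : (0 : ℝ) < ((K + n : ℕ) : ℝ) := by
    exact_mod_cast (by omega : 0 < K + n)
  have : 0 ≤ A * (1 / ((K + n : ℕ) : ℝ)) := by positivity
  have e : 2 * A * (1 / K - 1 / ((K + n : ℕ) : ℝ)) = 2 * A / K - 2 * (A * (1 / ((K + n : ℕ) : ℝ))) := by
    ring
  rw [e]
  linarith

theorem l2 (hIND : Stmt_IND) {α β : ℝ} (h1 : α ≤ β) (h2 : β ≤ α + 2 * Real.pi) (K : ℕ) (hK : 1 ≤ K) :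
    ∫ x in (0 : ℝ)..(2 * Real.pi), ‖(ind α β x : ℂ) - sK α β K x‖ ^ 2 ≤ 4 / K := by
  have hp := Real.pi_pos
  have hK' : (0 : ℝ) < K := by exact_mod_cast hK
  have hmem : MemLp (fun x => (ind α β x : ℂ) - sK α β K x) 2
      (volume.restrict (Set.Ioc 0 (2 * Real.pi))) := by
    refine MemLp.of_bound ?_ (1 + ∑ k ∈ Finset.Icc (-(K : ℤ)) (K : ℤ), ‖ck α β k‖) ?_
    · exact ((meas_ind hIND α β).sub (cont_sK α β K).measurable).aestronglyMeasurable
    · refine Filter.Eventually.of_forall fun x => ?_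
      refine (norm_sub_le _ _).trans (add_le_add (norm_ind hIND α β x) ?_)
      unfold sK
      refine (norm_sum_le _ _).trans (Finset.sum_le_sum fun k _ => ?_)
      rw [norm_mul, norm_e', mul_one]
  have hs := hasSum_sq_fourierCoeffOn Real.two_pi_pos hmem
  have hb : ((2 * Real.pi - 0)⁻¹ • ∫ x in (0 : ℝ)..(2 * Real.pi), ‖(ind α β x : ℂ) - sK α β K x‖ ^ 2) ≤
      2 * (1 / Real.pi ^ 2) / K := by
    refine hasSum_le_of_sum_le hs fun s => ?_
    refine tail _ K hK (by positivity) ?_ (fun i => by positivity) ?_ s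
    · intro i hi
      rw [fc_g hIND h1 h2 K i, if_pos hi]
      simp
    · intro i hi
      rw [fc_g hIND h1 h2 K i]
      split_ifs with h
      · rw [norm_zero, zero_pow two_ne_zero]
        positivity
      · have h3 := ck_norm α β hi
        have hi' : 0 < |(i : ℝ)| := abs_pos.2 (by exact_mod_cast hi)
        calc ‖ck α β i‖ ^ 2 ≤ (1 / (Real.pi * |(i : ℝ)|)) ^ 2 := by gcongr
          _ = 1 / Real.pi ^ 2 / (i : ℝ) ^ 2 := by
            rw [← sq_abs (i : ℝ)]
            field_simp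
  rw [sub_zero, smul_eq_mul] at hb
  set J := ∫ x in (0 : ℝ)..(2 * Real.pi), ‖(ind α β x : ℂ) - sK α β K x‖ ^ 2 with hJ
  have e1 : J = 2 * Real.pi * ((2 * Real.pi)⁻¹ * J) := by field_simp
  rw [e1]
  calc 2 * Real.pi * ((2 * Real.pi)⁻¹ * J) ≤ 2 * Real.pi * (2 * (1 / Real.pi ^ 2) / K) := by gcongr
    _ = 4 / (Real.pi * K) := by field_simp; ring
    _ ≤ 4 / K := by
      refine div_le_div_of_nonneg_left (by norm_num) hK' ?_
      nlinarith [Real.pi_gt_three]

theorem c11 (α β : ℝ) : ck α β 1 + ck α β (-1) = (((Real.sin β - Real.sin α) / Real.pi : ℝ) : ℂ) := by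
  have hp : (Real.pi : ℂ) ≠ 0 := by exact_mod_cast Real.pi_ne_zero
  unfold ck
  rw [← mul_add, ← intervalIntegral.integral_add ((by fun_prop : Continuous _).intervalIntegrable _ _)
    ((by fun_prop : Continuous _).intervalIntegrable _ _)]
  have e : ∀ x : ℝ, cexp (-(I * (((1 : ℤ) * x : ℝ) : ℂ))) + cexp (-(I * (((-1 : ℤ) * x : ℝ) : ℂ))) =
      ((2 * Real.cos x : ℝ) : ℂ) := by
    intro x
    push_cast
    rw [Complex.two_cos]
    rw [add_comm]
    congr 1
    · congr 1; ring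
    · congr 1; ring
  simp only [e]
  rw [intervalIntegral.integral_ofReal, intervalIntegral.integral_const_mul, integral_cos]
  push_cast
  field_simp

theorem c0 {α β : ℝ} (h1 : α ≤ β) (h2 : β ≤ α + 2 * Real.pi) : ‖ck α β 0‖ ≤ 1 := by
  have hp := Real.pi_pos
  unfold ck
  simp only [Int.cast_zero, zero_mul, Complex.ofReal_zero, mul_zero, neg_zero, Complex.exp_zero]
  rw [intervalIntegral.integral_const, norm_mul, Complex.norm_real, Real.norm_of_nonneg (by positivity)]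
  rw [norm_smul, norm_one, mul_one, Real.norm_of_nonneg (by linarith)]
  rw [one_div, inv_mul_le_iff₀ (by positivity)]
  linarith

end FOUx

theorem stmt_FOU (hIND : Stmt_IND) : Stmt_FOU := by
  intro α β h1 h2
  refine ⟨fun k hk => ?_, FOUx.c0 h1 h2, FOUx.c11 α β, fun K hK => FOUx.l2 hIND h1 h2 K hK⟩
  refine (FOUx.ck_norm α β hk).trans ?_
  have hk' : 0 < |(k : ℝ)| := abs_pos.2 (by exact_mod_cast hk)
  refine one_div_le_one_div_of_le hk' ?_
  nlinarith [Real.pi_gt_three]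

end HZP
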