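import Pool.Agent.Work.MP_c51bc2_nt_ub.Interface
import Pool.Agent.Work.MP_c51bc2_nt_lb.Interface

/-!
# MP_c51bc2_nt, THEOREM PB: `Z⁺` and `Z⁻` balance on every arc of the phase `e^{iθ(t)}`

`E = {t ∈ [T,2T] : e^{iθ(t)} ∈ arc (α, β)}`, `α ≤ β ≤ α + 2π`.
(1) `∫_E Z = (sin β - sin α) T / π + O(T^{3/4} log T)`, uniformly in `α, β`;
(2) `∫_E |Z| ≥ c(η) T (log T)^{1/4}` if `β - α ≥ η`.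

Blocks: THX, IND, FOU, EQD, ZEK, SGN (part 1); TFK, UPZ, LBW, KRN, LOE (part 2); FIN.
-/

set_option autoImplicit false

open Finset Complex MeasureTheory HZS

namespace HZP

noncomputable section

/-- `θ(t)` -/
def th (t : ℝ) : ℝ := Complex.arg (ph 0) + ∫ s in (0 : ℝ)..t, dth s

/-- `e^{ix}` lies on the open arc from `e^{iα}` to `e^{iβ}` -/
def InA (α β x : ℝ) : Prop := ∃ φ ∈ Set.Ioo α β, cexp (I * (φ : ℂ)) = cexp (I * (x : ℂ))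

open Classical in
/-- the indicator function of the arc -/
def ind (α β x : ℝ) : ℝ := if InA α β x then 1 else 0

/-- the Fourier coefficients of the arc -/
def ck (α β : ℝ) (k : ℤ) : ℂ :=
  ((1 / (2 * Real.pi) : ℝ) : ℂ) * ∫ x in α..β, cexp (-(I * ((k * x : ℝ) : ℂ)))

/-- the partial sum of the Fourier series -/
def sK (α β : ℝ) (K : ℕ) (x : ℝ) : ℂ :=
  ∑ k ∈ Finset.Icc (-(K : ℤ)) (K : ℤ), ck α β k * cexp (I * ((k * x : ℝ) : ℂ))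

/-- THX: `e^{iθ} = ph`, `θ' = dth`. PROOF. `PHS_formula`, `‖ph 0‖ = 1` (`stmt_PHS`). -/
def Stmt_THX : Prop := (∀ t : ℝ, cexp (I * (th t : ℂ)) = ph t) ∧ ∀ t : ℝ, HasDerivAt th (dth t) t

/-- IND: the indicator function is measurable and periodic. PROOF. `InA α β x` iff
`x ∈ ⋃ n : ℤ, (α + 2πn, β + 2πn)` (`Complex.exp_eq_exp_iff_exists_int`), an open set. -/
def Stmt_IND : Prop := ∀ α β : ℝ, Measurable (ind α β) ∧ (∀ x, 0 ≤ ind α β x ∧ ind α β x ≤ 1) ∧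
  ∀ x, ind α β (x + 2 * Real.pi) = ind α β x

/-- FOU: the Fourier series of the arc in the mean square.
PROOF. `c_k = (e^{-ikα} - e^{-ikβ}) / (2πik)`, so `|c_k| ≤ 1/(π|k|)`. Parseval for the indicator
function `f` on the circle (`tsum_sq_fourierCoeffOn` or `hasSum_sq_fourierCoeffOn` on `(α, α+2π]`,
where `f = 1_{(α,β)}`; shift the interval by periodicity): `∑ |c_k|² = (1/2π) ∫ |f|²`, and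
`∫ |f - s_K|² = ∫ |f|² - 2π ∑_{|k| ≤ K} |c_k|² = 2π ∑_{|k| > K} |c_k|² ≤ 2π · 2 ∑_{k > K} 1/(πk)² ≤
4/(πK)`. -/
def Stmt_FOU : Prop := ∀ α β : ℝ, α ≤ β → β ≤ α + 2 * Real.pi →
  (∀ k : ℤ, k ≠ 0 → ‖ck α β k‖ ≤ 1 / |(k : ℝ)|) ∧ ‖ck α β 0‖ ≤ 1 ∧
  ck α β 1 + ck α β (-1) = (((Real.sin β - Real.sin α) / Real.pi : ℝ) : ℂ) ∧
  ∀ K : ℕ, 1 ≤ K → ∫ x in (0 : ℝ)..(2 * Real.pi), ‖(ind α β x : ℂ) - sK α β K x‖ ^ 2 ≤ 4 / K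

/-- EQD: `θ(t)` is equidistributed (upper bound).
PROOF. `|θ' - log t / 2| ≤ C₀` (`stmt_PHS`), so on `[T,2T]`, `T` large, `m := log T / 4 ≤ θ' ≤ log T`
and `θ` is injective. `∫ f(θ(t)) dt ≤ (1/m) ∫ f(θ(t)) θ'(t) dt = (1/m) ∫_{θ(T)}^{θ(2T)} f`
(`MeasureTheory.integral_image_eq_integral_abs_deriv_smul`), `θ(2T) - θ(T) ≤ T log T`, so at most
`T log T` periods: `≤ 4 T ∫_0^{2π} f`. -/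
def Stmt_EQD : Prop := ∃ C T0 : ℝ, 0 < C ∧ 1 < T0 ∧ ∀ (T : ℝ) (f : ℝ → ℝ), T0 ≤ T →
  Measurable f → (∀ x, 0 ≤ f x) → (∃ M : ℝ, ∀ x, f x ≤ M) →
  (∀ x, f (x + 2 * Real.pi) = f x) →
    ∫ t in T..(2 * T), f (th t) ≤ C * T * ∫ x in (0 : ℝ)..(2 * Real.pi), f x

/-- ZEK: the first moments of `Z e^{ikθ}`.
PROOF. `k = 0`: `Stmt_KMN`, `y = 0`. `k = -1`: `Z ph⁻¹ = ζ`, `Stmt_OFF` with `N = 1`, `b = 1`.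
`k ≤ -2`: `Z ph^k = ζ ph^{k+1}`, `m = -(k+1) ≥ 1`; `ζ = ∑_{n ≤ N0 T} n^{-1/2-it} + O(T^{-1/2})`
(`stmt_ZS`); `∫ ph^{-m} n^{-it} = O(1)` by the first derivative test (`Pool.M6T.fdt` for the
conjugate: `f' = (mθ' + log n)/2π ≥ 1`, `f'' ≥ 0`), sum over `n`: `O(T^{1/2})`.
`k ≥ 1`: complex conjugation. -/
def Stmt_ZEK : Prop := ∃ C T0 : ℝ, 0 < C ∧ 1 < T0 ∧ ∀ (T : ℝ) (k : ℤ), T0 ≤ T →
  ‖(∫ t in T..(2 * T), (Z t : ℂ) * ph t ^ k) - (if k = 1 ∨ k = -1 then (T : ℂ) else 0)‖ ≤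
    C * T ^ (3 / 4 : ℝ)

/-- SGN: the signed part.
PROOF. `K = ⌈√T⌉`. `ind = sK + (ind - sK)`. `∫ Z sK(θ) = ∑_{|k| ≤ K} c_k ∫ Z ph^k =
T (c_1 + c_{-1}) + O(T^{3/4} (1 + 2 ∑_{k ≤ K} 1/k))`; the rest by Cauchy-Schwarz:
`(∫ Z²)^{1/2} (∫ |ind - sK|²(θ(t)) dt)^{1/2} ≤ (C T log T)^{1/2} (C T · 4/K)^{1/2}`
(`all_ZSQ`, EQD, FOU). -/
def Stmt_SGN : Prop := ∃ C T0 : ℝ, 0 < C ∧ 1 < T0 ∧ ∀ T α β : ℝ, T0 ≤ T → α ≤ β →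
  β ≤ α + 2 * Real.pi →
    |(∫ t in T..(2 * T), Z t * ind α β (th t)) - (Real.sin β - Real.sin α) / Real.pi * T| ≤
      C * T ^ (3 / 4 : ℝ) * Real.log T

/-- TFK: the twisted first moment of `ζ e^{ikθ}`, `k ≠ 0, 2`.
PROOF. `k ≤ -1`: as ZEK with the frequency `m θ' + log n + log (d/d')`. `k = 1`: `ζ ph = Z` and
`Stmt_KMN` with `y = log(d'/d)`. `k ≥ 3`: `ζ ph^k = conj ζ · ph^{k-2}`, conjugate. -/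
def Stmt_TFK : Prop := ∃ C T0 : ℝ, 0 < C ∧ 1 < T0 ∧
  ∀ (T : ℝ) (Y : ℕ) (b c : ℕ → ℂ) (k : ℤ), T0 ≤ T → (Y : ℝ) ≤ T ^ (1 / 20 : ℝ) →
    (∀ n, ‖b n‖ ≤ 1) → (∀ n, ‖c n‖ ≤ 1) → k ≠ 0 → k ≠ 2 →
    ‖∫ t in T..(2 * T), riemannZeta (1 / 2 + I * t) * D b Y t * (starRingEnd ℂ) (D c Y t) *
      ph t ^ k‖ ≤ C * T ^ (9 / 10 : ℝ)

/-- UPZ: the upper bound for the first moment.
PROOF. `δ = 1/20`, `H = T`, `W = W0` fixed, a chain with `IsLC δ T W R X lam` (`alls_PAR`);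
`∫ (1 - gd) |Z| ≤ C T L^{1/4}` (`lb_OFF`), `gd |Z| ≤ 4 |Z| ‖MM‖ ‖NN‖ ≤ 2 (|Z|² ‖MM‖² + ‖NN‖²)`
(`lb_GDM`), `lb_TWN`. -/
def Stmt_UPZ : Prop := ∃ C T0 : ℝ, 0 < C ∧ 1 < T0 ∧ ∀ T : ℝ, T0 ≤ T →
  ∫ t in T..(2 * T), |Z t| ≤ C * T * Real.log T ^ (1 / 4 : ℝ)

/-- LBW: the main inequality of the lower bound with a weight `F(ph t)`, `F(z) = ∑ f_k z^k`, `f_2 = 0`.
PROOF. Copy `LBFs_upper`, `stmt_LBFs` (MP_c51bc2_nt_s/B_LBFs.lean) with `δ = 1/20`, `H = T` and the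
weight `F(ph t)`, `‖F‖ ≤ 2`: the sum over the blocks gets a factor 2; main term `f_0 T S`, the other
terms by TFK. -/
def Stmt_LBW : Prop := ∃ c4 Cs w0 : ℝ, 0 < c4 ∧ 0 < Cs ∧ 1 ≤ w0 ∧ ∀ w : ℝ, w0 ≤ w →
  ∃ C T0 : ℝ, 0 < C ∧ 1 < T0 ∧ ∀ (T : ℝ) (S : Finset ℤ) (f : ℤ → ℂ), T0 ≤ T →
    (2 : ℤ) ∉ S → (0 : ℤ) ∈ S → (∀ z : ℂ, ‖z‖ = 1 → ‖∑ k ∈ S, f k * z ^ k‖ ≤ 2) →
      (c4 * ‖f 0‖ - Cs / w ^ 2) * (T * Real.log T ^ (1 / 4 : ℝ) / w) ≤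
        2 * (∫ t in T..(2 * T), |Z t| * ‖∑ k ∈ S, f k * ph t ^ k‖) +
          C * (∑ k ∈ S, ‖f k‖) * T ^ (9 / 10 : ℝ)

/-- KRN: the kernel. PROOF. With `z' = z e^{-iφ}`, `u = C(2n,n+2)/C(2n,n) = n(n-1)/((n+1)(n+2))`,
`F(z) = (1 + z')^{2n} / (4 z')^n · (1 - u z'²)`, `|1 + z'|²/4 = cos²(x'/2)` for `z' = e^{ix'}`; the
coefficient of `z²` is `0`; `‖f_0‖ = C(2n,n)/4^n (1 - u²) ≥ 1/(2n) · 1/n`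
(`Nat.four_pow_le_two_mul_self_mul_centralBinom`), `ρ = cos²(η/4)`. -/
def Stmt_KRN : Prop := ∀ η : ℝ, 0 < η → η ≤ Real.pi → ∃ ρ : ℝ, 0 < ρ ∧ ρ < 1 ∧
  ∀ n : ℕ, 2 ≤ n → ∀ φ : ℝ, ∃ (S : Finset ℤ) (f : ℤ → ℂ), (2 : ℤ) ∉ S ∧ (0 : ℤ) ∈ S ∧
    (∀ z : ℂ, ‖z‖ = 1 → ‖∑ k ∈ S, f k * z ^ k‖ ≤ 2) ∧ 1 / (2 * (n : ℝ) ^ 2) ≤ ‖f 0‖ ∧
    ∑ k ∈ S, ‖f k‖ ≤ 2 ∧
    ∀ x : ℝ, ¬ InA (φ - η / 2) (φ + η / 2) x →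
      ‖∑ k ∈ S, f k * cexp (I * (x : ℂ)) ^ k‖ ≤ 2 * ρ ^ n

/-- LOE: the lower bound on an arc.
PROOF. `w = max w0 (2 n √(Cs/c4))`, so `c4/(2n²) - Cs/w² ≥ c4/(4n²)` and `w ≤ C n`;
LBW and KRN: `c' T a / n³ ≤ 2 (2 ∫ |Z| ind + 2 ρⁿ ∫ |Z|) + 2 C T^{9/10}`, `a = L^{1/4}`; UPZ; `n` large
so that `4 ρⁿ C_u ≤ c'/(4n³)`, then `T` large. -/
def Stmt_LOE : Prop := ∀ η : ℝ, 0 < η → η ≤ Real.pi → ∃ c T0 : ℝ, 0 < c ∧ 1 < T0 ∧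
  ∀ T φ : ℝ, T0 ≤ T → c * T * Real.log T ^ (1 / 4 : ℝ) ≤
    ∫ t in T..(2 * T), |Z t| * ind (φ - η / 2) (φ + η / 2) (th t)

/-- the set of the theorem -/
def EA (T α β : ℝ) : Set ℝ := {t : ℝ | t ∈ Set.Icc T (2 * T) ∧
  ∃ φ ∈ Set.Ioo α β, cexp (I * (φ : ℂ)) = (Real.pi : ℂ) ^ (-(I * t / 2)) *
    Complex.Gamma (1 / 4 + I * t / 2) / (‖Complex.Gamma (1 / 4 + I * t / 2)‖ : ℂ)}

/-- FIN: the theorem. PROOF. `∫_E g = ∫_T^{2T} g(t) ind(θ(t)) dt`; `max(Z,0) = (|Z| + Z)/2`. -/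
def Stmt_FIN : Prop :=
  (∃ C T0 : ℝ, 0 < C ∧ 1 < T0 ∧ ∀ T α β : ℝ, T0 ≤ T → α ≤ β → β ≤ α + 2 * Real.pi →
    |(∫ t in EA T α β, max (Z t) 0) + (∫ t in EA T α β, min (Z t) 0) -
      (Real.sin β - Real.sin α) / Real.pi * T| ≤ C * T ^ (3 / 4 : ℝ) * Real.log T) ∧
  ∀ η : ℝ, 0 < η → ∃ c T0 : ℝ, 0 < c ∧ 1 < T0 ∧ ∀ T α β : ℝ, T0 ≤ T → α + η ≤ β →
    c * T * Real.log T ^ (1 / 4 : ℝ) ≤ ∫ t in EA T α β, max (Z t) 0 ∧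
    c * T * Real.log T ^ (1 / 4 : ℝ) ≤ -∫ t in EA T α β, min (Z t) 0

end

end HZP
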